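import Pool.Agent.H92.EM.TC
import Pool.Agent.H4.EQ.PRNc

/-!
# Row MPE of the board `emd_modules`: renewal for densities supported in `Zk m κ`
-/

set_option autoImplicit false

open scoped BigOperators ComplexConjugate ContDiff ComplexOrder
open MeasureTheory Filter Pool.Agent.H92.EQ Pool.Agent.H4.EQ Pool.Agent.H92.EM

namespace Pool.Agent.H10.EM

noncomputable section

variable {k : ℕ}

/-- preimages by the iterates of a stable set -/
theorem pre_iter (hD12 : T_D12) {d : ℕ} (hd1 : 1 ≤ d)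
    {F : Fin (k + 1) → MvPolynomial (Fin (k + 1)) ℂ} (hF : IsH d F)
    {Z : Set (Fin (k + 1) → ℂ)} (hZ : ev F ⁻¹' Z ⊆ Z) :
    ∀ (a : ℕ) (z : Fin (k + 1) → ℂ), ev (iter F a) z ∈ Z → z ∈ Z := by
  intro a
  induction a with
  | zero =>
    intro z hz
    have h0 : ev (iter F 0) z = z := by
      funext i
      exact MvPolynomial.eval_X i
    rwa [h0] at hz
  | succ a ih =>
    intro z hz
    have hi1 : ∀ x : Fin (k + 1) → ℂ, ev (iter F 1) x = ev F x := by
      intro x
      funext i
      change MvPolynomial.eval x (MvPolynomial.bind₁ (fun i => MvPolynomial.X i) (F i)) =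
        MvPolynomial.eval x (F i)
      rw [MvPolynomial.bind₁_X_left]
      rfl
    rw [add_comm a 1, (hD12 (k + 1) d F hd1 hF 1 a).2.1 z, hi1] at hz
    exact ih z (hZ hz)

/-- the expectation of `θ ^ (the last visit)`, for densities supported in a stable set -/
theorem renewal_coreZ (hPSA : T_PSA) (hPMK : T_PMK) (hPDE : T_PDE) (hD12 : T_D12)
    (hKG2 : T_KG2) (hP1 : T_P1) (hL1 : T_L1) {d t s n : ℕ}
    {F : Fin (k + 1) → MvPolynomial (Fin (k + 1)) ℂ}
    {h : Fin s → MvPolynomial (Fin (k + 1)) ℂ} {e : Fin s → ℕ} {C θ δ s0 : ℝ}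
    {v : (Fin (k + 1) → ℂ) → ℝ} (hd : 2 ≤ d) (hF : IsH d F) (hv : Hom0 v)
    (hv01 : ∀ z, 0 ≤ v z ∧ v z ≤ 1) (hC : 1 ≤ C)
    (hgrow : ∀ x : Fin (k + 1) → ℂ, x ≠ 0 → phi h e (ev F x) ≤ C * phi h e x) (hθ : 1 < θ)
    (hδ : 0 < δ) {Z : Set (Fin (k + 1) → ℂ)} (hZ : ev F ⁻¹' Z ⊆ Z)
    (hnum : ∀ L, L ≤ n → ∀ σ : Form (Fin (k + 1)) k, ProjForm σ → InK Z σ →
      InK {z | s0 ≤ C ^ (n - L) * phi h e z} σ →
      ∑ j ∈ Finset.Ico t (L + 1), θ ^ (j + 1) * EE F d j σ (fv F v t j) ≤
        (1 - δ / 2) * mass 0 σ) :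
    ∀ L, L ≤ n → ∀ σ : Form (Fin (k + 1)) k, ProjForm σ → InK Z σ →
      InK {z | s0 ≤ C ^ (n - L) * phi h e z} σ →
      EE F d L σ (Rw F v θ L) ≤ (θ ^ t + 1) * (2 / δ) * mass 0 σ := by
  have hd1 : 1 ≤ d := by omega
  have hθ0 : 0 < θ := by linarith
  have hM0 : 0 ≤ (θ ^ t + 1) * (2 / δ) := by positivity
  have hIt : ∀ a, IsH (d ^ a) (iter F a) := fun a => (hD12 (k + 1) d F hd1 hF 0 a).1
  have hV : ∀ a, Hom0 (fun x => v (ev (iter F a) x)) := fun a => hom0_comp hL1 (hIt a) hv
  have hadd : ∀ (a b : ℕ) (x : Fin (k + 1) → ℂ),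
      ev (iter F (a + b)) x = ev (iter F a) (ev (iter F b) x) := fun a b x =>
    (hD12 (k + 1) d F hd1 hF a b).2.1 x
  have hi0 : ∀ x : Fin (k + 1) → ℂ, ev (iter F 0) x = x := by
    intro x
    funext i
    exact MvPolynomial.eval_X i
  have hi1 : ∀ x : Fin (k + 1) → ℂ, ev (iter F 1) x = ev F x := by
    intro x
    funext i
    change MvPolynomial.eval x (MvPolynomial.bind₁ (fun i => MvPolynomial.X i) (F i)) =
      MvPolynomial.eval x (F i)
    rw [MvPolynomial.bind₁_X_left]
    rfl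
  have hfv : ∀ j, Hom0 (fv F v t j) := by
    intro j
    apply hom0_mul _ hv
    exact hom0_prod (Finset.Ico t j) (fun i x => 1 - v (ev (iter F (j - i)) x)) fun i =>
      hom0_sub (hom0_const 1) (hV _)
  have hfv0 : ∀ j x, 0 ≤ fv F v t j x := by
    intro j x
    exact mul_nonneg (Finset.prod_nonneg fun i _ => by
      linarith [(hv01 (ev (iter F (j - i)) x)).2]) (hv01 x).1
  have hRw : ∀ L, Hom0 (Rw F v θ L) := by
    intro L
    exact hom0_sum _ (fun i x => θ ^ i * (v (ev (iter F (L - i)) x) *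
      ∏ m ∈ Finset.Ico (i + 1) (L + 1), (1 - v (ev (iter F (L - m)) x)))) fun i =>
      hom0_mul (hom0_const _) (hom0_mul (hV _) (hom0_prod _
        (fun m x => 1 - v (ev (iter F (L - m)) x)) fun m => hom0_sub (hom0_const 1) (hV _)))
  intro L
  induction L using Nat.strong_induction_on with
  | _ L ih =>
  intro hL σ hσ hKZ hK
  have hσL : ProjForm (Sn F d L σ) := (hD12 (k + 1) d F hd1 hF 0 L).2.2.2.2 k σ hσ
  have hmass : 0 ≤ mass 0 σ := by
    have h1 := (hPMK k d 0 0 F σ hd hF hσ).2.2.2.2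
    have h2 := h1.1 (fun _ => 0) (fun _ => 1) (hom0_const 0) (hom0_const 1)
      fun _ _ => zero_le_one
    rw [h1.2] at h2
    have h3 := ee_mul (F := F) (d := d) (L := 0) (σ := σ) 0 (fun _ => 0)
    simp only [zero_mul] at h3
    rw [h3] at h2
    exact h2
  -- the expectations of the first visits
  have hfvj : ∀ j, j ≤ L → EE F d L σ (fun x => fv F v t j (ev (iter F (L - j)) x)) =
      EE F d j σ (fv F v t j) := by
    intro j hj
    have h1 := (hPMK k d j (L - j) F σ hd hF hσ).2.1 (fv F v t j) (hfv j)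
    rw [show j + (L - j) = L by omega] at h1
    exact h1
  have hpj0 : ∀ j, 0 ≤ EE F d j σ (fv F v t j) := by
    intro j
    have h1 := (hPMK k d j 0 F σ hd hF hσ).2.2.2.2
    have h2 := h1.1 (fun _ => 0) (fv F v t j) (hom0_const 0) (hfv j) fun z _ => hfv0 j z
    have h3 := ee_mul (F := F) (d := d) (L := j) (σ := σ) 0 (fun _ => 0)
    simp only [zero_mul] at h3
    rw [h3] at h2
    exact h2
  -- the remaining sums
  obtain ⟨Rx, hRx⟩ : ∃ Rx : ℕ → (Fin (k + 1) → ℂ) → ℝ, Rx = fun j x =>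
    if j < L then Rw F v θ (L - (j + 1)) x else 0 := ⟨_, rfl⟩
  have hRx1 : ∀ j, j < L → Rx j = Rw F v θ (L - (j + 1)) := by
    intro j hj
    rw [hRx]
    funext x
    simp only [if_pos hj]
  have hRx2 : ∀ j, ¬ j < L → Rx j = fun _ => 0 := by
    intro j hj
    rw [hRx]
    funext x
    simp only [if_neg hj]
  have hRxH : ∀ j, Hom0 (Rx j) := by
    intro j
    by_cases hj : j < L
    · rw [hRx1 j hj]
      exact hRw _
    · rw [hRx2 j hj]
      exact hom0_const 0
  have hsum : ∀ j, j ∈ Finset.Ico t (L + 1) → ∀ x, ∑ i ∈ Finset.Ico (j + 1) (L + 1), θ ^ i *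
      (v (ev (iter F (L - i)) x) *
        ∏ m ∈ Finset.Ico (i + 1) (L + 1), (1 - v (ev (iter F (L - m)) x))) =
      θ ^ (j + 1) * Rx j x := by
    intro j hj x
    have hjL : j ≤ L := by
      have := (Finset.mem_Ico.1 hj).2
      omega
    by_cases hj : j < L
    · rw [hRx1 j hj]
      obtain ⟨L', hL'⟩ : ∃ L', L = L' + (j + 1) := ⟨L - (j + 1), by omega⟩
      have e1 : L - (j + 1) = L' := by omega
      rw [e1]
      unfold Rw
      rw [Finset.mul_sum]
      have h1 : Finset.Ico (j + 1) (L + 1) = Finset.Ico (0 + (j + 1)) (L' + 1 + (j + 1)) := by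
        rw [hL', zero_add]
        congr 1
        omega
      rw [h1, ← Finset.sum_Ico_add']
      apply Finset.sum_congr rfl
      intro i _
      have h2 : L - (i + (j + 1)) = L' - i := by omega
      have h3 : Finset.Ico (i + (j + 1) + 1) (L + 1) =
          Finset.Ico (i + 1 + (j + 1)) (L' + 1 + (j + 1)) := by
        rw [hL']
        congr 1
        · omega
        · omega
      rw [h2, h3, ← Finset.prod_Ico_add']
      have h4 : ∀ m, L - (m + (j + 1)) = L' - m := by
        intro m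
        omega
      simp only [h4]
      rw [pow_add]
      ring
    · rw [hRx2 j hj, mul_zero, Finset.Ico_eq_empty (by omega), Finset.sum_empty]
  -- pointwise bound
  have hnoV : ∀ j, j ≤ L → ∀ x, (∏ i ∈ Finset.Ico t j, (1 - v (ev (iter F (L - i)) x))) *
      v (ev (iter F (L - j)) x) = fv F v t j (ev (iter F (L - j)) x) := by
    intro j hj x
    unfold fv noV
    congr 1
    apply Finset.prod_congr rfl
    intro i hi
    have hij := (Finset.mem_Ico.1 hi).2
    rw [← hadd, show j - i + (L - j) = L - i by omega]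
  have hpt : ∀ x, Rw F v θ L x ≤ θ ^ t * 1 + ∑ j ∈ Finset.Ico t (L + 1),
      (θ ^ j * fv F v t j (ev (iter F (L - j)) x) +
        θ ^ (j + 1) * (fv F v t j (ev (iter F (L - j)) x) * Rx j x)) := by
    intro x
    refine (seq_bound hPSA (fun i => v (ev (iter F (L - i)) x)) (fun i => hv01 _) θ hθ.le t
      L).trans (le_of_eq ?_)
    rw [mul_one]
    congr 1
    apply Finset.sum_congr rfl
    intro j hj
    have hjL : j ≤ L := by
      have := (Finset.mem_Ico.1 hj).2
      omega
    rw [hnoV j hjL x, hsum j hj x]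
    ring
  -- the renewal terms
  have hren : ∀ j ∈ Finset.Ico t (L + 1),
      EE F d L σ (fun x => fv F v t j (ev (iter F (L - j)) x) * Rx j x) ≤
        (θ ^ t + 1) * (2 / δ) * EE F d j σ (fv F v t j) := by
    intro j hj
    have hjL : j ≤ L := by
      have := (Finset.mem_Ico.1 hj).2
      omega
    by_cases hj : j < L
    · rw [hRx1 j hj]
      obtain ⟨L', hL'⟩ : ∃ L', L' = L - (j + 1) := ⟨_, rfl⟩
      rw [← hL']
      obtain ⟨g, hg⟩ : ∃ g : (Fin (k + 1) → ℂ) → ℝ, g = fun x => fv F v t j (ev (iter F 1) x) :=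
        ⟨_, rfl⟩
      have hgH : Hom0 g := by
        rw [hg]
        exact hom0_comp hL1 (hIt 1) (hfv j)
      have hg0 : ∀ z, z ≠ 0 → 0 ≤ g z := by
        intro z _
        rw [hg]
        exact hfv0 j _
      have h1 := (hPMK k d L' (j + 1) F σ hd hF hσ).2.2.1 g (Rw F v θ L')
      rw [show j + 1 + L' = L by omega] at h1
      have h2 : (fun x => g (ev (iter F L') x) * Rw F v θ L' x) =
          fun x => fv F v t j (ev (iter F (L - j)) x) * Rw F v θ L' x := by
        funext x
        rw [hg]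
        simp only
        rw [← hadd, show 1 + L' = L - j by omega]
      rw [h2] at h1
      rw [h1]
      have hσ1 : ProjForm (Sn F d (j + 1) σ) := (hD12 (k + 1) d F hd1 hF 0 (j + 1)).2.2.2.2 k σ hσ
      have hσ2 : ProjForm (dens g (Sn F d (j + 1) σ)) := hPDE k g _ hσ1 hgH hg0
      have hK1 := (hKG2 (k + 1) d k (j + 1) F _ σ (fun _ => 0) hd1 hF hK).2.1
      have hK2 : InK {z | s0 ≤ C ^ (n - L') * phi h e z} (dens g (Sn F d (j + 1) σ)) := by
        intro z hz hzK I J
        have h3 : Sn F d (j + 1) σ z I J = 0 := by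
          apply hK1 z hz
          intro hmem
          apply hzK
          have h4 : ∀ a, phi h e (ev (iter F a) z) ≤ C ^ a * phi h e z := by
            intro a
            induction a with
            | zero => rw [hi0, pow_zero, one_mul]
            | succ a iha =>
              have hne : ev (iter F a) z ≠ 0 := fun h0 => hz ((hIt a).nd z h0)
              rw [add_comm a 1, hadd 1 a, hi1, pow_add, pow_one]
              calc phi h e (ev F (ev (iter F a) z)) ≤ C * phi h e (ev (iter F a) z) :=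
                    hgrow _ hne
                _ ≤ C * (C ^ a * phi h e z) := mul_le_mul_of_nonneg_left iha (by linarith)
                _ = _ := by ring
          change s0 ≤ C ^ (n - L) * phi h e (ev (iter F (j + 1)) z) at hmem
          change s0 ≤ C ^ (n - L') * phi h e z
          refine hmem.trans ?_
          rw [show n - L' = (n - L) + (j + 1) by omega, pow_add]
          calc _ ≤ C ^ (n - L) * (C ^ (j + 1) * phi h e z) :=
                mul_le_mul_of_nonneg_left (h4 (j + 1)) (by positivity)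
            _ = _ := by ring
        change (g z : ℂ) * Sn F d (j + 1) σ z I J = 0
        rw [h3, mul_zero]
      have hKZ2 : InK Z (dens g (Sn F d (j + 1) σ)) := by
        intro z hz hzK I J
        have h3 : Sn F d (j + 1) σ z I J = 0 := by
          apply (hKG2 (k + 1) d k (j + 1) F Z σ (fun _ => 0) hd1 hF hKZ).2.1 z hz
          intro hmem
          exact hzK (pre_iter hD12 hd1 hF hZ (j + 1) z hmem)
        change (g z : ℂ) * Sn F d (j + 1) σ z I J = 0
        rw [h3, mul_zero]
      have h5 := ih L' (by omega) (by omega) _ hσ2 hKZ2 hK2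
      have h6 := (hPMK k d 0 (j + 1) F σ hd hF hσ).2.2.2.1 g
      rw [h6] at h5
      have h7 := (hPMK k d j 1 F σ hd hF hσ).2.1 (fv F v t j) (hfv j)
      rw [← hg] at h7
      rw [h7] at h5
      exact h5
    · rw [hRx2 j hj]
      simp only [mul_zero]
      have h3 := ee_mul (F := F) (d := d) (L := L) (σ := σ) 0 (fun _ => 0)
      simp only [zero_mul] at h3
      rw [h3]
      exact mul_nonneg hM0 (hpj0 j)
  -- sum up
  have hF1 : ∀ j, Hom0 (fun x => fv F v t j (ev (iter F (L - j)) x)) := fun j =>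
    hom0_comp hL1 (hIt _) (hfv j)
  have hF2 : ∀ j, Hom0 (fun x => fv F v t j (ev (iter F (L - j)) x) * Rx j x) := fun j =>
    hom0_mul (hF1 j) (hRxH j)
  have hF3 : ∀ j, Hom0 (fun x => θ ^ j * fv F v t j (ev (iter F (L - j)) x) +
      θ ^ (j + 1) * (fv F v t j (ev (iter F (L - j)) x) * Rx j x)) := fun j =>
    hom0_add (hom0_mul (hom0_const _) (hF1 j)) (hom0_mul (hom0_const _) (hF2 j))
  have hmono := (hPMK k d L 0 F σ hd hF hσ).2.2.2.2.1 (Rw F v θ L) _ (hRw L)
    (hom0_add (hom0_mul (hom0_const (θ ^ t)) (hom0_const 1))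
      (hom0_sum (Finset.Ico t (L + 1)) _ hF3)) fun z _ => hpt z
  rw [ee_add hP1 hσL (hom0_mul (hom0_const (θ ^ t)) (hom0_const 1))
    (hom0_sum (Finset.Ico t (L + 1)) _ hF3), ee_mul, ee_sum hP1 hσL _ _ hF3,
    (hPMK k d L 0 F σ hd hF hσ).2.2.2.2.2] at hmono
  refine hmono.trans ?_
  have hterm : ∀ j ∈ Finset.Ico t (L + 1),
      EE F d L σ (fun x => θ ^ j * fv F v t j (ev (iter F (L - j)) x) +
        θ ^ (j + 1) * (fv F v t j (ev (iter F (L - j)) x) * Rx j x)) ≤
      (1 + (θ ^ t + 1) * (2 / δ)) * (θ ^ (j + 1) * EE F d j σ (fv F v t j)) := by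
    intro j hj
    have hjL : j ≤ L := by
      have := (Finset.mem_Ico.1 hj).2
      omega
    rw [ee_add hP1 hσL (hom0_mul (hom0_const _) (hF1 j)) (hom0_mul (hom0_const _) (hF2 j)),
      ee_mul, ee_mul, hfvj j hjL]
    have h1 := mul_le_mul_of_nonneg_left (hren j hj) (pow_nonneg hθ0.le (j + 1))
    have h2 : θ ^ j ≤ θ ^ (j + 1) := pow_le_pow_right₀ hθ.le (by omega)
    have h3 := mul_le_mul_of_nonneg_right h2 (hpj0 j)
    linarith
  have h1 := Finset.sum_le_sum hterm
  rw [← Finset.mul_sum] at h1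
  have h2 := mul_le_mul_of_nonneg_left (hnum L hL σ hσ hKZ hK)
    (show 0 ≤ 1 + (θ ^ t + 1) * (2 / δ) by positivity)
  have h3 : θ ^ t * mass 0 σ + (1 + (θ ^ t + 1) * (2 / δ)) * ((1 - δ / 2) * mass 0 σ) ≤
      (θ ^ t + 1) * (2 / δ) * mass 0 σ := by
    have h4 : θ ^ t * mass 0 σ + (1 + (θ ^ t + 1) * (2 / δ)) * ((1 - δ / 2) * mass 0 σ) =
        (θ ^ t + 1) * (2 / δ) * mass 0 σ - δ / 2 * mass 0 σ := by
      field_simp
      ring
    rw [h4]
    have := mul_nonneg hδ.le hmass
    linarith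
  linarith

/-- renewal -/
theorem pf_MPE (hPSA : T_PSA) (hPMK : T_PMK) (hPDE : T_PDE) (hPVI : T_PVI) (hD12 : T_D12)
    (hKG2 : T_KG2) (hP1 : T_P1) (hL1 : T_L1) : T_MPE := by
  intro m k d M κ F P CF t s A h e C δ c r0 ε0 hd hFM hZk _ hPh _ hCF hFV hInv hδ0 hδ1 hc hr0
    hr0' hε0 hPRC s0 c2 hs0 hc2
  have hF : IsH d F := hFM.isH
  have hd1 : 1 ≤ d := by omega
  have hC := hInv.one
  have hC0 : 0 < C := by linarith
  have hlC : 0 ≤ Real.log C := Real.log_nonneg hC
  obtain ⟨θ, hθ1, hθ2, hθ⟩ := prn_theta t d δ CF hd hδ0 hδ1 hCF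
  have hθ0 : 0 < θ := by linarith
  obtain ⟨K, hKd⟩ : ∃ K : ℝ, K = 1 / ε0 + |Real.log r0| + A * Real.log C +
    |A * Real.log s0| + |Real.log c| + 8 * CF * (3 / 2) ^ (t + 2) / δ + 1 := ⟨_, rfl⟩
  obtain ⟨n0, hn0⟩ := eventually_atTop.1 (prn_growth d hd c2 K)
  refine ⟨θ, (θ ^ t + 1) * (2 / δ), n0, hθ1, by positivity, ?_⟩
  intro n hn i hi σ hσ hKZ0 hK
  have hgr := hn0 n hn
  obtain ⟨G, hG⟩ : ∃ G : ℝ, G = ((n : ℝ) + 1) * (3 / 2) ^ n := ⟨_, rfl⟩
  rw [← hG] at hgr
  have hnn : (0 : ℝ) ≤ n := Nat.cast_nonneg n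
  have hGn : (n : ℝ) + 1 ≤ G := by
    have h2 : (1 : ℝ) ≤ (3 / 2) ^ n := one_le_pow₀ (by norm_num)
    rw [hG]
    nlinarith
  have hG1 : 1 ≤ G := by linarith
  obtain ⟨l, hl⟩ : ∃ l : ℝ, l = (d : ℝ) ^ n / (n : ℝ) ^ 4 - Real.log c2 := ⟨_, rfl⟩
  rw [← hl] at hgr
  obtain ⟨r, hr⟩ : ∃ r : ℝ, r = c2 * Real.exp (-((d : ℝ) ^ n / (n : ℝ) ^ 4)) := ⟨_, rfl⟩
  have hrl : r = Real.exp (-l) := by
    rw [hr, hl]
    have h1 : -((d : ℝ) ^ n / (n : ℝ) ^ 4 - Real.log c2) =
        Real.log c2 + -((d : ℝ) ^ n / (n : ℝ) ^ 4) := by ring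
    rw [h1, Real.exp_add, Real.exp_log hc2]
  have hrpos : 0 < r := by rw [hrl]; exact Real.exp_pos _
  have hlog : Real.log (1 / r) = l := by
    rw [one_div, Real.log_inv, hrl, Real.log_exp, neg_neg]
  -- the parts of the growth condition
  have b1 : 0 ≤ 1 / ε0 := by positivity
  have b2 : 0 ≤ |Real.log r0| := abs_nonneg _
  have b3 : 0 ≤ A * Real.log C := mul_nonneg (Nat.cast_nonneg _) hlC
  have b4 : 0 ≤ |A * Real.log s0| := abs_nonneg _
  have b5 : 0 ≤ |Real.log c| := abs_nonneg _
  have b6 : 0 ≤ 8 * CF * (3 / 2) ^ (t + 2) / δ := by positivity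
  have hgr' : 1 / ε0 * G + |Real.log r0| * G + A * Real.log C * G + |A * Real.log s0| * G +
      |Real.log c| * G + 8 * CF * (3 / 2) ^ (t + 2) / δ * G + G ≤ l := by
    refine le_trans (le_of_eq ?_) hgr
    rw [hKd]
    ring
  have c1 : 0 ≤ 1 / ε0 * G := mul_nonneg b1 (by linarith)
  have c2' : |Real.log r0| ≤ |Real.log r0| * G := le_mul_of_one_le_right b2 hG1
  have c3 : A * Real.log C * n ≤ A * Real.log C * G :=
    mul_le_mul_of_nonneg_left (by linarith) b3
  have c4 : |A * Real.log s0| ≤ |A * Real.log s0| * G := le_mul_of_one_le_right b4 hG1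
  have c5 : |Real.log c| ≤ |Real.log c| * G := le_mul_of_one_le_right b5 hG1
  have c6 : 0 ≤ 8 * CF * (3 / 2) ^ (t + 2) / δ * G := mul_nonneg b6 (by linarith)
  have c7 : 0 ≤ A * Real.log C * n := mul_nonneg b3 hnn
  have hl0 : 0 < l := by linarith
  have g1 : r ≤ r0 := by
    rw [hrl, ← Real.exp_log hr0]
    apply Real.exp_le_exp.2
    linarith [neg_abs_le (Real.log r0)]
  have g2 : (n : ℝ) ≤ ε0 * l := by
    have h1 : 1 / ε0 * (n : ℝ) ≤ l := by
      have h2 : 1 / ε0 * (n : ℝ) ≤ 1 / ε0 * G := mul_le_mul_of_nonneg_left (by linarith) b1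
      linarith
    calc (n : ℝ) = ε0 * (1 / ε0 * n) := by field_simp
      _ ≤ ε0 * l := mul_le_mul_of_nonneg_left h1 hε0.le
  have g3 : r / c ≤ (s0 / C ^ n) ^ A := by
    rw [div_le_iff₀ hc]
    have h1 : (s0 / C ^ n) ^ A * c =
        Real.exp (A * (Real.log s0 - n * Real.log C) + Real.log c) := by
      rw [Real.exp_add, Real.exp_log hc, ← Real.log_pow, ← Real.log_div hs0.ne' (by positivity),
        ← Real.log_pow, Real.exp_log (by positivity)]
    rw [h1, hrl]
    apply Real.exp_le_exp.2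
    have h2 := neg_abs_le (A * Real.log s0)
    have h3 := neg_abs_le (Real.log c)
    have h4 : (A : ℝ) * (Real.log s0 - n * Real.log C) =
        A * Real.log s0 - A * Real.log C * n := by ring
    rw [h4]
    linarith
  have g4 : CF * (((n : ℝ) + 1) * (3 / 2) ^ (t + n + 2)) * (1 / l) ≤ δ / 8 := by
    rw [mul_one_div, div_le_iff₀ hl0]
    have h1 : CF * (((n : ℝ) + 1) * (3 / 2) ^ (t + n + 2)) = CF * (3 / 2) ^ (t + 2) * G := by
      rw [hG, show t + n + 2 = (t + 2) + n by ring, pow_add]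
      ring
    have h2 : 8 * CF * (3 / 2) ^ (t + 2) / δ * G ≤ l := by linarith
    have h3 : CF * (3 / 2) ^ (t + 2) * G = δ / 8 * (8 * CF * (3 / 2) ^ (t + 2) / δ * G) := by
      field_simp
    rw [h1, h3]
    exact mul_le_mul_of_nonneg_left h2 (by positivity)
  -- the weights
  obtain ⟨hv, hv01, -, -⟩ := hPVI (k + 1) M P r hPh hrpos
  rw [← hr]
  obtain ⟨v, hvd⟩ : ∃ v, v = vis P M r := ⟨_, rfl⟩
  rw [← hvd] at hv hv01
  rw [← hvd]
  have hIt : ∀ a, IsH (d ^ a) (iter F a) := fun a => (hD12 (k + 1) d F hd1 hF 0 a).1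
  have hV : ∀ a, Hom0 (fun x => v (ev (iter F a) x)) := fun a => hom0_comp hL1 (hIt a) hv
  have hadd : ∀ (a b : ℕ) (x : Fin (k + 1) → ℂ),
      ev (iter F (a + b)) x = ev (iter F a) (ev (iter F b) x) := fun a b x =>
    (hD12 (k + 1) d F hd1 hF a b).2.1 x
  have hi0 : ∀ x : Fin (k + 1) → ℂ, ev (iter F 0) x = x := by
    intro x
    funext i
    exact MvPolynomial.eval_X i
  have hfv : ∀ j, Hom0 (fv F v t j) := by
    intro j
    apply hom0_mul _ hv
    exact hom0_prod (Finset.Ico t j) (fun i x => 1 - v (ev (iter F (j - i)) x)) fun i =>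
      hom0_sub (hom0_const 1) (hV _)
  have hfv0 : ∀ j x, 0 ≤ fv F v t j x := by
    intro j x
    exact mul_nonneg (Finset.prod_nonneg fun i _ => by
      linarith [(hv01 (ev (iter F (j - i)) x)).2]) (hv01 x).1
  have hRw : ∀ L, Hom0 (Rw F v θ L) := by
    intro L
    exact hom0_sum _ (fun i x => θ ^ i * (v (ev (iter F (L - i)) x) *
      ∏ m ∈ Finset.Ico (i + 1) (L + 1), (1 - v (ev (iter F (L - m)) x)))) fun i =>
      hom0_mul (hom0_const _) (hom0_mul (hV _) (hom0_prod _
        (fun m x => 1 - v (ev (iter F (L - m)) x)) fun m => hom0_sub (hom0_const 1) (hV _)))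
  -- the numerical condition
  have hnum : ∀ L, L ≤ n → ∀ σ : Form (Fin (k + 1)) k, ProjForm σ → InK (Zk m κ) σ →
      InK {z | s0 ≤ C ^ (n - L) * phi h e z} σ →
      ∑ j ∈ Finset.Ico t (L + 1), θ ^ (j + 1) * EE F d j σ (fv F v t j) ≤
        (1 - δ / 2) * mass 0 σ := by
    intro L hL σ hσ hKZ hK
    have hm := mass_nn hPMK hd hF hσ
    by_cases htL : t ≤ L
    · have hσL : ProjForm (Sn F d L σ) := (hD12 (k + 1) d F hd1 hF 0 L).2.2.2.2 k σ hσ
      rw [Finset.sum_Ico_eq_sum_range]
      apply hθ (1 / l) (mass 0 σ) n (L + 1 - t) (fun l => EE F d (t + l) σ (fv F v t (t + l)))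
        hm (by positivity) (by omega)
      · intro l _
        exact ee_nonneg hPMK hd hF hσ _ (hfv _) fun z _ => hfv0 _ z
      · have h1 := hPRC r L σ hrpos g1 htL (by
          rw [hlog]
          have h2 : (L : ℝ) ≤ n := by exact_mod_cast hL
          linarith) hσ hKZ (by
          intro z hz hzK I J
          apply hK z hz
          intro hmem
          apply hzK
          change s0 ≤ C ^ (n - L) * phi h e z at hmem
          change r / c ≤ phi h e z ^ A
          have hCn : 0 < C ^ n := by positivity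
          have hphi : s0 / C ^ n ≤ phi h e z := by
            rw [div_le_iff₀ hCn]
            have h2 : 0 < phi h e z := by
              by_contra h3
              push Not at h3
              have h4 := mul_nonpos_of_nonneg_of_nonpos
                (show 0 ≤ C ^ (n - L) by positivity) h3
              linarith
            calc s0 ≤ C ^ (n - L) * phi h e z := hmem
              _ ≤ C ^ n * phi h e z :=
                  mul_le_mul_of_nonneg_right (pow_le_pow_right₀ hC (by omega)) h2.le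
              _ = _ := mul_comm _ _
          exact g3.trans (pow_le_pow_left₀ (by positivity) hphi A))
        rw [← hvd] at h1
        have h2 : ∑ j ∈ Finset.Ico t (L + 1), EE F d j σ (fv F v t j) =
            mass 0 σ - EE F d L σ (noV F v L t (L + 1)) := by
          have e1 : ∀ j ∈ Finset.Ico t (L + 1), EE F d j σ (fv F v t j) =
              EE F d L σ (fun x => fv F v t j (ev (iter F (L - j)) x)) := by
            intro j hj
            have hjL : j ≤ L := by
              have := (Finset.mem_Ico.1 hj).2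
              omega
            have h3 := (hPMK k d j (L - j) F σ hd hF hσ).2.1 (fv F v t j) (hfv j)
            rw [show j + (L - j) = L by omega] at h3
            exact h3.symm
          rw [Finset.sum_congr rfl e1, ← ee_sum hP1 hσL _
            (fun j x => fv F v t j (ev (iter F (L - j)) x)) fun j =>
            hom0_comp hL1 (hIt _) (hfv j)]
          have e2 : (fun x => ∑ j ∈ Finset.Ico t (L + 1), fv F v t j (ev (iter F (L - j)) x)) =
              fun x => (fun _ => 1) x + (-1) * noV F v L t (L + 1) x := by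
            funext x
            have h3 := (hPSA (fun i => v (ev (iter F (L - i)) x)) 1 t (L + 1) (by omega)).1
            have h4 : ∀ j ∈ Finset.Ico t (L + 1), fv F v t j (ev (iter F (L - j)) x) =
                (∏ i ∈ Finset.Ico t j, (1 - v (ev (iter F (L - i)) x))) *
                  v (ev (iter F (L - j)) x) := by
              intro j hj
              have hjL : j ≤ L := by
                have := (Finset.mem_Ico.1 hj).2
                omega
              unfold fv noV
              congr 1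
              apply Finset.prod_congr rfl
              intro i hi
              have hij := (Finset.mem_Ico.1 hi).2
              rw [← hadd, show j - i + (L - j) = L - i by omega]
            rw [Finset.sum_congr rfl h4, ← h3]
            unfold noV
            ring
          have hnoV : Hom0 (noV F v L t (L + 1)) :=
            hom0_prod (Finset.Ico t (L + 1)) (fun i x => 1 - v (ev (iter F (L - i)) x)) fun i =>
              hom0_sub (hom0_const 1) (hV _)
          rw [e2, ee_add hP1 hσL (hom0_const 1) (hom0_mul (hom0_const (-1)) hnoV), ee_mul,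
            (hPMK k d L 0 F σ hd hF hσ).2.2.2.2.2]
          ring
        rw [← Finset.sum_Ico_eq_sum_range (fun j => EE F d j σ (fv F v t j)), h2]
        linarith
      · intro l' hl' _
        obtain ⟨e1, e2⟩ := fv_restart hPMK hd hF hσ v t l'
        have hσt : ProjForm (Sn F d t σ) := (hD12 (k + 1) d F hd1 hF 0 t).2.2.2.2 k σ hσ
        have hσtZ : InK (Zk m κ) (Sn F d t σ) := by
          intro z hz hzK I J
          apply (hKG2 (k + 1) d k t F (Zk m κ) σ (fun _ => 0) hd1 hF hKZ).2.1 z hz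
          intro hmem
          exact hzK (pre_iter hD12 hd1 hF hZk t z hmem)
        have h1 := hFV r l' (Sn F d t σ) hrpos (g1.trans hr0') hl' hσt hσtZ
        rw [hlog, e2, ← hvd, ← e1] at h1
        exact h1
      · exact g4
    · rw [Finset.Ico_eq_empty (by omega), Finset.sum_empty]
      exact mul_nonneg (by linarith) hm
  -- conclusion
  have hcore := renewal_coreZ hPSA hPMK hPDE hD12 hKG2 hP1 hL1 hd hF hv hv01 hC hInv.grow hθ1
    hδ0 hZk hnum i hi σ hσ hKZ0 (by
      intro z hz hzK I J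
      apply hK z hz
      intro hmem
      apply hzK
      change s0 ≤ phi h e z at hmem
      change s0 ≤ C ^ (n - i) * phi h e z
      have h1 : 1 ≤ C ^ (n - i) := one_le_pow₀ hC
      calc s0 ≤ phi h e z := hmem
        _ ≤ C ^ (n - i) * phi h e z := le_mul_of_one_le_left (hs0.le.trans hmem) h1)
  have hlast : ∀ z, θ ^ i * v z ≤ Rw F v θ i z := by
    intro z
    unfold Rw
    have h1 := Finset.single_le_sum (s := Finset.Ico 0 (i + 1)) (f := fun a => θ ^ a *
      (v (ev (iter F (i - a)) z) *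
        ∏ m ∈ Finset.Ico (a + 1) (i + 1), (1 - v (ev (iter F (i - m)) z)))) (fun a _ =>
        mul_nonneg (pow_nonneg hθ0.le _) (mul_nonneg (hv01 _).1 (Finset.prod_nonneg fun m _ => by
          linarith [(hv01 (ev (iter F (i - m)) z)).2]))) (Finset.mem_Ico.2
        ⟨Nat.zero_le i, Nat.lt_succ_self i⟩)
    simp only [Nat.sub_self, Finset.Ico_self, Finset.prod_empty, mul_one, hi0] at h1
    exact h1
  have hmono := (hPMK k d i 0 F σ hd hF hσ).2.2.2.2.1 (fun z => θ ^ i * v z) (Rw F v θ i)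
    (hom0_mul (hom0_const _) hv) (hRw i) fun z _ => hlast z
  rw [ee_mul] at hmono
  have hfin := hmono.trans hcore
  have hθi : 0 < θ ^ i := by positivity
  rw [div_mul_eq_mul_div, le_div_iff₀ hθi]
  linarith

end

end Pool.Agent.H10.EM
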