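import Pool.Agent.H10.EM.MRCc

/-!
# Board emd_modules, row MRC: the costs of the closed forms
-/

set_option autoImplicit false

namespace Pool.Agent.H10.EM

open scoped BigOperators ComplexConjugate ContDiff ComplexOrder
open MeasureTheory Pool.Agent.H92.EQ Pool.Agent.H92.EM Pool.Agent.H10.EM.MRC
open Pool.Agent.H14.EQ (GP ev_GP')

noncomputable section

theorem pf_MRC (hMRH : T_MRH) (hMRF : T_MRF) (hA1 : T_A1) (hA2 : T_A2) (hA3 : T_A3)
    (hA4 : T_A4) (hA7 : T_A7) (hA11 : T_A11) (hA15 : T_A15) (hD2 : T_D2) (hD4 : T_D4)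
    (hD5 : T_D5) (hD7 : T_D7) (hD9 : T_D9) (hD11 : T_D11) (hD13 : T_D13) (hP1 : T_P1)
    (hP3 : T_P3) (hP5 : T_P5) (hL1 : T_L1) (hL3 : T_L3) (hL5 : T_L5) (hW4 : T_W4)
    (hW9 : T_W9) : T_MRC := by
  intro k s q hk
  obtain ⟨CF, hCF, hF⟩ := hMRF
  obtain ⟨C, hC, hQT⟩ := qt_bounds hMRH hA1 hA2 hA3 hA4 hA7 hA11 hA15 hD2 hD4 hD7 hD9 hW4 hW9
    hL3 hL5 k
  obtain ⟨M1, hM1⟩ : ∃ M1, M1 = mass (q + 1) (om (k + 1) s) := ⟨_, rfl⟩
  obtain ⟨M2, hM2⟩ : ∃ M2, M2 = s * |mass (q + 2) (om (k + 1) (s - 1))| := ⟨_, rfl⟩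
  have hM1p : 0 < M1 := hM1 ▸ ((hD7 (k + 1) s).2 (q + 1) (by omega)).1
  have hM2p : 0 ≤ M2 := hM2 ▸ by positivity
  have hθ : 0 < th0 k := by unfold th0; positivity
  have hθ1 : th0 k ≤ 1 := by
    unfold th0
    rw [div_le_one (by positivity)]
    have : (0 : ℝ) ≤ k := Nat.cast_nonneg k
    linarith
  refine ⟨C ^ (s + 1) * CF * (4 * ((s : ℝ) + 1) * M1 + 4 * (M1 + M2) + 16 * M1), by positivity,
    ?_⟩
  intro D Φ hD hΦ X i j hX v hv
  have hDR : (0 : ℝ) < D := by exact_mod_cast hD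
  obtain ⟨c, hc⟩ : ∃ c, c = (1 : Matrix (Fin (k + 1)) (Fin (k + 1)) ℂ) i j := ⟨_, rfl⟩
  obtain ⟨Sh, hSh⟩ : ∃ Sh, Sh = {z : Fin (k + 1) → ℂ | 0 ≤ ell z ∧ ell z < 1} := ⟨_, rfl⟩
  obtain ⟨Ba, hBa⟩ : ∃ Ba, Ba = {t : ℂ | ‖t - c‖ < th0 k} := ⟨_, rfl⟩
  have hBm : MeasurableSet Ba := by
    rw [hBa]
    exact measurableSet_lt ((measurable_id.sub_const c).norm) measurable_const
  have hlog : ∫⁻ t in Ba, ENNReal.ofReal (Real.log (th0 k / ‖t - c‖)) ≤
      ENNReal.ofReal (4 * CF) := by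
    rw [hBa]
    exact log_int hF c hθ hθ1
  have hS1 : ProjForm (pull Φ (om (k + 1) s)) := hD5 (k + 1) s D Φ _ hD hΦ (hD7 (k + 1) s).1
  obtain ⟨Q1, hQ1⟩ : ∃ Q1, Q1 = fun x => Q (pull Φ (om (k + 1) s)) v x := ⟨_, rfl⟩
  have hm1 := mass_int hP1 hP3 hL1 (pull Φ (om (k + 1) s)) v (by omega) hS1 hv
  have hmp := (hP5 (k + 1) s (q + 1) D (om (k + 1) s) (by omega) (hD7 (k + 1) s).1).1 Φ hD hΦ
  rw [hmp, ← hM1, ← hSh] at hm1
  have hQ1i : IntegrableOn Q1 Sh := hQ1 ▸ hm1.1
  have hQ1m : ∫ x in Sh, Q1 x = (D : ℝ) ^ s * M1 := by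
    rw [hQ1]
    exact hm1.2
  have hQ1n : ∀ x, x ≠ 0 → 0 ≤ Q1 x := by
    intro x hx
    rw [hQ1]
    exact (hP3 (k + 1) s (q + 1) _ v (by omega) hS1 hv).1 x hx
  have hae : ∀ᵐ x ∂(volume.restrict Sh), x ≠ 0 := ae_restrict_of_ae ne_ae
  rw [← hc, ← hBa]
  constructor
  · have h1 : ∀ t ∈ Ba, mT (pull (GP Φ X i j) (om (k + 1) (s + 1))) (fun l z => v l (tl z)) t ≤
        C ^ (s + 1) * ((s + 1 : ℝ) * ((D : ℝ) ^ s * M1)) := by
      intro t ht
      have ht' : ‖t - (1 : Matrix (Fin (k + 1)) (Fin (k + 1)) ℂ) i j‖ ≤ th0 k := by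
        rw [← hc]
        rw [hBa] at ht
        exact le_of_lt ht
      rw [← hQ1m, ← integral_const_mul, ← integral_const_mul]
      unfold mT Iint
      rw [← hSh]
      refine integral_mono_of_nonneg ?_ ((hQ1i.const_mul _).const_mul _) ?_
      · filter_upwards [hae] with x hx
        exact (hQT D Φ hD hΦ X i j 0 t 1 x hX ht' one_pos le_rfl hx s q v hv).1
      · filter_upwards [hae] with x hx
        rw [hQ1]
        exact (hQT D Φ hD hΦ X i j 0 t 1 x hX ht' one_pos le_rfl hx s q v hv).2.1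
    calc _ ≤ ∫⁻ t in Ba, ENNReal.ofReal (Real.log (th0 k / ‖t - c‖)) *
          ENNReal.ofReal (C ^ (s + 1) * ((s + 1 : ℝ) * ((D : ℝ) ^ s * M1))) := by
          refine setLIntegral_mono' hBm fun t ht => ?_
          exact mul_le_mul_right (ENNReal.ofReal_le_ofReal (h1 t ht)) _
      _ = (∫⁻ t in Ba, ENNReal.ofReal (Real.log (th0 k / ‖t - c‖))) *
          ENNReal.ofReal (C ^ (s + 1) * ((s + 1 : ℝ) * ((D : ℝ) ^ s * M1))) :=
          lintegral_mul_const' _ _ ENNReal.ofReal_ne_top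
      _ ≤ ENNReal.ofReal (4 * CF) *
          ENNReal.ofReal (C ^ (s + 1) * ((s + 1 : ℝ) * ((D : ℝ) ^ s * M1))) :=
          mul_le_mul_left hlog _
      _ = ENNReal.ofReal (C ^ (s + 1) * CF * (4 * ((s : ℝ) + 1) * M1) * (D : ℝ) ^ s) := by
          rw [← ENNReal.ofReal_mul (by positivity)]
          congr 1
          ring
      _ ≤ _ := by
          refine ENNReal.ofReal_le_ofReal ?_
          refine mul_le_mul_of_nonneg_right ?_ (by positivity)
          refine mul_le_mul_of_nonneg_left ?_ (by positivity)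
          have : 0 ≤ 4 * (M1 + M2) + 16 * M1 := by positivity
          linarith
  · intro b δ hδ hδ1
    have hlogn : 0 ≤ Real.log (1 / δ) := by
      refine Real.log_nonneg ?_
      rw [le_div_iff₀ hδ]
      linarith
    have h1 : ∀ t ∈ Ba,
        ENNReal.ofReal (mT (pull (GP Φ X i j) (TF s b δ)) (fun l z => v l (tl z)) t) ≤
        ENNReal.ofReal (C ^ (s + 1)) * (ENNReal.ofReal ((D : ℝ) ^ s * (M1 + M2)) +
          ∫⁻ x in Sh, ENNReal.ofReal (ph Φ X i j b δ t x) * ENNReal.ofReal (Q1 x)) := by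
      intro t ht
      have ht' : ‖t - (1 : Matrix (Fin (k + 1)) (Fin (k + 1)) ℂ) i j‖ ≤ th0 k := by
        rw [← hc]
        rw [hBa] at ht
        exact le_of_lt ht
      have h3 := third hA1 hP1 hP3 hP5 hL1 hL3 hL5 hD5 hD7 hD11 hD13 hk hD hΦ hX hv b hδ ht'
      rw [← hM2, ← hSh] at h3
      obtain ⟨Q2, hQ2⟩ : ∃ Q2, Q2 = fun x => (s : ℝ) * Q (pull Φ (om (k + 1) (s - 1)))
        (Fin.cons (α := fun _ => (Fin (k + 1) → ℂ) → ℝ) (wt Φ X i j b δ t) v) x := ⟨_, rfl⟩
      have hQ2i : IntegrableOn Q2 Sh := hQ2 ▸ h3.1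
      have hQ2m : ∫ x in Sh, Q2 x ≤ (D : ℝ) ^ s * M2 := by
        rw [hQ2]
        exact h3.2
      have hphi : IntegrableOn (fun x => ph Φ X i j b δ t x * Q1 x) Sh := by
        rw [hQ1, hSh]
        exact (hP1 (k + 1) s (q + 1) _ v (fun _ => 1) (by omega) hS1
          fun j => (hL1 (k + 1) 0 0 0 0 (v j) (v j)).2.2.1 (hv j)).2 _ (ph_cont hΦ hX b hδ ht')
      have h4 : mT (pull (GP Φ X i j) (TF s b δ)) (fun l z => v l (tl z)) t ≤
          C ^ (s + 1) * ((D : ℝ) ^ s * (M1 + M2) + ∫ x in Sh, ph Φ X i j b δ t x * Q1 x) := by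
        have h5 : mT (pull (GP Φ X i j) (TF s b δ)) (fun l z => v l (tl z)) t ≤
            ∫ x in Sh, C ^ (s + 1) * (Q1 x + ph Φ X i j b δ t x * Q1 x + Q2 x) := by
          unfold mT Iint
          rw [← hSh]
          refine integral_mono_of_nonneg ?_ (((hQ1i.add hphi).add hQ2i).const_mul _) ?_
          · filter_upwards [hae] with x hx
            exact (hQT D Φ hD hΦ X i j b t δ x hX ht' hδ hδ1 hx s q v hv).2.2.1
          · filter_upwards [hae] with x hx
            refine ((hQT D Φ hD hΦ X i j b t δ x hX ht' hδ hδ1 hx s q v hv).2.2.2).trans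
              (le_of_eq ?_)
            rw [hQ1, hQ2]
            ring
        refine h5.trans ?_
        rw [integral_const_mul]
        refine mul_le_mul_of_nonneg_left ?_ (by positivity)
        have a1 := integral_add (hQ1i.add hphi) hQ2i
        have a2 := integral_add hQ1i hphi
        simp only [Pi.add_apply] at a1
        rw [a1, a2, hQ1m]
        linarith
      have h6 : ENNReal.ofReal (∫ x in Sh, ph Φ X i j b δ t x * Q1 x) =
          ∫⁻ x in Sh, ENNReal.ofReal (ph Φ X i j b δ t x) * ENNReal.ofReal (Q1 x) := by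
        rw [ofReal_integral_eq_lintegral_ofReal hphi]
        · refine lintegral_congr fun x => ?_
          exact ENNReal.ofReal_mul (ph_nonneg Φ X i j b δ t x)
        · filter_upwards [hae] with x hx
          exact mul_nonneg (ph_nonneg Φ X i j b δ t x) (hQ1n x hx)
      refine (ENNReal.ofReal_le_ofReal h4).trans ?_
      rw [ENNReal.ofReal_mul (by positivity)]
      refine mul_le_mul_right ?_ _
      refine ENNReal.ofReal_add_le.trans (le_of_eq ?_)
      rw [h6]
    have hQ1ae : AEMeasurable Q1 (volume.restrict Sh) := hQ1i.aestronglyMeasurable.aemeasurable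
    obtain ⟨lw, hlw⟩ : ∃ lw : ℂ → ENNReal,
      lw = fun t => ENNReal.ofReal (Real.log (th0 k / ‖t - c‖)) := ⟨_, rfl⟩
    have hlwm : Measurable lw := by
      rw [hlw]
      exact (Real.measurable_log.comp
        ((measurable_id.sub_const c).norm.const_div (th0 k))).ennreal_ofReal
    have h2 : ∫⁻ t in Ba, lw t * ∫⁻ x in Sh, ENNReal.ofReal (ph Φ X i j b δ t x) *
        ENNReal.ofReal (Q1 x) ≤
        ENNReal.ofReal (16 * CF * (1 + Real.log (1 / δ))) *
          ENNReal.ofReal ((D : ℝ) ^ s * M1) := by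
      calc _ = ∫⁻ t in Ba, ∫⁻ x in Sh, lw t * (ENNReal.ofReal (ph Φ X i j b δ t x) *
          ENNReal.ofReal (Q1 x)) := by
            refine lintegral_congr fun t => ?_
            rw [lintegral_const_mul' _ _ (by rw [hlw]; exact ENNReal.ofReal_ne_top)]
        _ = ∫⁻ x in Sh, ∫⁻ t in Ba, lw t * (ENNReal.ofReal (ph Φ X i j b δ t x) *
          ENNReal.ofReal (Q1 x)) := by
            refine lintegral_lintegral_swap ?_
            refine ((hlwm.comp measurable_fst).aemeasurable).mul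
              (((ph_meas Φ X i j b δ).ennreal_ofReal.aemeasurable).mul ?_)
            exact hQ1ae.comp_snd.ennreal_ofReal
        _ ≤ ∫⁻ x in Sh, ENNReal.ofReal (16 * CF * (1 + Real.log (1 / δ))) *
          ENNReal.ofReal (Q1 x) := by
            refine lintegral_mono_ae ?_
            filter_upwards [hae] with x hx
            have h3 : ∀ t, lw t * (ENNReal.ofReal (ph Φ X i j b δ t x) *
                ENNReal.ofReal (Q1 x)) = (lw t * ENNReal.ofReal (ph Φ X i j b δ t x)) *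
                ENNReal.ofReal (Q1 x) := fun t => (mul_assoc _ _ _).symm
            simp only [h3]
            rw [lintegral_mul_const' _ _ ENNReal.ofReal_ne_top]
            refine mul_le_mul_left ?_ _
            rw [hlw, hBa, hc]
            exact ker_le hCF hF hΦ hX b hδ hδ1 hx
        _ = _ := by
            rw [lintegral_const_mul' _ _ ENNReal.ofReal_ne_top, ← hQ1m,
              ofReal_integral_eq_lintegral_ofReal hQ1i]
            filter_upwards [hae] with x hx using hQ1n x hx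
    calc _ ≤ ∫⁻ t in Ba, lw t * (ENNReal.ofReal (C ^ (s + 1)) *
          (ENNReal.ofReal ((D : ℝ) ^ s * (M1 + M2)) +
          ∫⁻ x in Sh, ENNReal.ofReal (ph Φ X i j b δ t x) * ENNReal.ofReal (Q1 x))) := by
          refine setLIntegral_mono' hBm fun t ht => ?_
          rw [hlw]
          exact mul_le_mul_right (h1 t ht) _
      _ = ENNReal.ofReal (C ^ (s + 1)) * (∫⁻ t in Ba,
          (lw t * ENNReal.ofReal ((D : ℝ) ^ s * (M1 + M2)) + lw t *
          ∫⁻ x in Sh, ENNReal.ofReal (ph Φ X i j b δ t x) * ENNReal.ofReal (Q1 x))) := by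
          rw [← lintegral_const_mul' _ _ ENNReal.ofReal_ne_top]
          refine lintegral_congr fun t => ?_
          ring
      _ = ENNReal.ofReal (C ^ (s + 1)) * ((∫⁻ t in Ba, lw t) *
          ENNReal.ofReal ((D : ℝ) ^ s * (M1 + M2)) + ∫⁻ t in Ba, lw t *
          ∫⁻ x in Sh, ENNReal.ofReal (ph Φ X i j b δ t x) * ENNReal.ofReal (Q1 x)) := by
          rw [lintegral_add_left (hlwm.mul_const _),
            lintegral_mul_const' _ _ ENNReal.ofReal_ne_top]
      _ ≤ ENNReal.ofReal (C ^ (s + 1)) * (ENNReal.ofReal (4 * CF) *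
          ENNReal.ofReal ((D : ℝ) ^ s * (M1 + M2)) +
          ENNReal.ofReal (16 * CF * (1 + Real.log (1 / δ))) *
          ENNReal.ofReal ((D : ℝ) ^ s * M1)) := by
          refine mul_le_mul_right (add_le_add (mul_le_mul_left ?_ _) h2) _
          rw [hlw]
          exact hlog
      _ = ENNReal.ofReal (C ^ (s + 1) * (4 * CF * ((D : ℝ) ^ s * (M1 + M2)) +
          16 * CF * (1 + Real.log (1 / δ)) * ((D : ℝ) ^ s * M1))) := by
          rw [← ENNReal.ofReal_mul (by positivity), ← ENNReal.ofReal_mul (by positivity),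
            ← ENNReal.ofReal_add (by positivity) (by positivity),
            ← ENNReal.ofReal_mul (by positivity)]
      _ ≤ _ := by
          refine ENNReal.ofReal_le_ofReal ?_
          have e1 : 0 ≤ C ^ (s + 1) * CF * (D : ℝ) ^ s := by positivity
          have e2 : 0 ≤ 4 * ((s : ℝ) + 1) * M1 * (1 + Real.log (1 / δ)) +
              4 * (M1 + M2) * Real.log (1 / δ) := by positivity
          have e3 : C ^ (s + 1) * CF * (4 * ((s : ℝ) + 1) * M1 + 4 * (M1 + M2) + 16 * M1) *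
              (1 + Real.log (1 / δ)) * (D : ℝ) ^ s -
              C ^ (s + 1) * (4 * CF * ((D : ℝ) ^ s * (M1 + M2)) +
                16 * CF * (1 + Real.log (1 / δ)) * ((D : ℝ) ^ s * M1)) =
              (C ^ (s + 1) * CF * (D : ℝ) ^ s) * (4 * ((s : ℝ) + 1) * M1 *
                (1 + Real.log (1 / δ)) + 4 * (M1 + M2) * Real.log (1 / δ)) := by ring
          have e4 := mul_nonneg e1 e2
          linarith

end

end Pool.Agent.H10.EM
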