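import Pool.Agent.H92.EM.TA
import Pool.Agent.H51.EHD.RW
import Pool.Agent.H39.EQ.TB

/-!
# Board emd_modules, row MRC: the costs of the closed forms, linear algebra
-/

set_option autoImplicit false

namespace Pool.Agent.H10.EM.MRC

open scoped BigOperators ComplexConjugate ContDiff ComplexOrder
open MeasureTheory Pool.Agent.H92.EQ Pool.Agent.H92.EM
open Pool.Agent.H14.EQ (GP ev_GP')

noncomputable section

/-! ### Block diagonal matrices -/

/-- the matrix with blocks `c` and `B` -/
def bk {N : ℕ} (c : ℂ) (B : Matrix (Fin N) (Fin N) ℂ) : Matrix (Fin (N + 1)) (Fin (N + 1)) ℂ :=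
  Matrix.of (fun a b : Fin (N + 1) => Fin.cases (motive := fun _ => ℂ)
    (Fin.cases (motive := fun _ => ℂ) c (fun _ => 0) b)
    (fun a' => Fin.cases (motive := fun _ => ℂ) 0 (fun b' => B a' b') b) a)

theorem bk_sub {N : ℕ} (c : ℂ) (B : Matrix (Fin N) (Fin N) ℂ) :
    (bk c B).submatrix Fin.succ Fin.succ = B := by
  ext a b
  rfl

theorem bk_split {N : ℕ} (c : ℂ) (B : Matrix (Fin N) (Fin N) ℂ) :
    bk c B = c • Matrix.single 0 0 1 + bk 0 B := by
  ext a b
  rw [Matrix.add_apply, Matrix.smul_apply, smul_eq_mul, Matrix.single_apply]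
  refine Fin.cases ?_ (fun a' => ?_) a
  · refine Fin.cases ?_ (fun b' => ?_) b
    · rw [if_pos ⟨rfl, rfl⟩]
      show c = c * 1 + 0
      ring
    · rw [if_neg (fun h => Fin.succ_ne_zero b' h.2.symm)]
      show (0 : ℂ) = c * 0 + 0
      ring
  · rw [if_neg (fun h => Fin.succ_ne_zero a' h.1.symm)]
    refine Fin.cases ?_ (fun b' => ?_) b
    · show (0 : ℂ) = c * 0 + 0
      ring
    · show B a' b' = c * 0 + B a' b'
      ring

theorem bk_eq {N : ℕ} (H : Matrix (Fin (N + 1)) (Fin (N + 1)) ℂ)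
    (h : ∀ b, H 0 b = 0 ∧ H b 0 = 0) : H = bk 0 (H.submatrix Fin.succ Fin.succ) := by
  ext a b
  refine Fin.cases ?_ (fun a' => ?_) a
  · refine Fin.cases ?_ (fun b' => ?_) b
    · exact (h 0).1
    · exact (h b'.succ).1
  · refine Fin.cases ?_ (fun b' => ?_) b
    · exact (h a'.succ).2
    · rfl

theorem bk_psd {N : ℕ} {c : ℝ} (hc : 0 ≤ c) {B : Matrix (Fin N) (Fin N) ℂ}
    (hB : B.PosSemidef) : (bk (c : ℂ) B).PosSemidef := by
  rw [bk_split]
  have e1 : bk 0 B = (Matrix.of (fun (a : Fin N) (b : Fin (N + 1)) =>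
      if b = a.succ then (1 : ℂ) else 0)).conjTranspose * B *
      (Matrix.of (fun (a : Fin N) (b : Fin (N + 1)) => if b = a.succ then (1 : ℂ) else 0)) := by
    ext a b
    rw [Matrix.mul_apply]
    simp only [Matrix.mul_apply, Matrix.conjTranspose_apply, Matrix.of_apply]
    refine Fin.cases ?_ (fun a' => ?_) a
    · rw [Finset.sum_eq_zero]
      · refine Fin.cases ?_ (fun b' => ?_) b <;> rfl
      · intro j _
        rw [Finset.sum_eq_zero, zero_mul]
        intro i _
        rw [if_neg (Fin.succ_ne_zero i).symm, star_zero, zero_mul]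
    · refine Fin.cases ?_ (fun b' => ?_) b
      · rw [Finset.sum_eq_zero]
        · rfl
        · intro j _
          rw [if_neg (Fin.succ_ne_zero j).symm, mul_zero]
      · rw [Finset.sum_eq_single b']
        · rw [Finset.sum_eq_single a']
          · rw [if_pos rfl, if_pos rfl, star_one, one_mul, mul_one]
            rfl
          · intro i _ hi
            rw [if_neg (fun h => hi (Fin.succ_injective _ h).symm), star_zero, zero_mul]
          · intro h
            exact absurd (Finset.mem_univ _) h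
        · intro j _ hj
          rw [if_neg (fun h => hj (Fin.succ_injective _ h).symm), mul_zero]
        · intro h
          exact absurd (Finset.mem_univ _) h
  have e2 : (c : ℂ) • (Matrix.single 0 0 1 : Matrix (Fin (N + 1)) (Fin (N + 1)) ℂ) =
      (c : ℂ) • Matrix.vecMulVec (Pi.single 0 1 : Fin (N + 1) → ℂ)
        (star (Pi.single 0 1 : Fin (N + 1) → ℂ)) := by
    congr 1
    ext a b
    rw [Matrix.vecMulVec_apply, Matrix.single_apply, Pi.star_apply, Pi.single_apply,
      Pi.single_apply]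
    by_cases ha : a = 0
    · by_cases hb : b = 0
      · rw [if_pos ⟨ha.symm, hb.symm⟩, if_pos ha, if_pos hb]
        simp
      · rw [if_neg (fun h => hb h.2.symm), if_neg hb]
        simp
    · rw [if_neg (fun h => ha h.1.symm), if_neg ha]
      simp
  refine Matrix.PosSemidef.add ?_ ?_
  · rw [e2]
    exact (Matrix.posSemidef_vecMulVec_self_star _).smul (by exact_mod_cast hc)
  · rw [e1]
    exact hB.conjTranspose_mul_mul_same _

/-! ### The expansion of a product of block diagonal matrices -/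

theorem front {N m : ℕ} (hA2 : T_A2) (hA11 : T_A11)
    (F : Fin (m + 1) → Matrix (Fin (N + 1)) (Fin (N + 1)) ℂ) (r : Fin (m + 1)) :
    mixD (p := 0) (fun _ _ => (1 : ℂ)) (Function.update F r (Matrix.single 0 0 1)) =
      mixD (p := 0) (fun _ _ => (1 : ℂ))
        (fun l => (F (r.succAbove l)).submatrix Fin.succ Fin.succ) := by
  rw [← hA2 (Fin (N + 1)) 0 (m + 1) (fun _ _ => (1 : ℂ))
    (Function.update F r (Matrix.single 0 0 1)) r.cycleRange.symm]
  have e : (fun j => Function.update F r (Matrix.single 0 0 1) (r.cycleRange.symm j)) =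
      Fin.cons (α := fun _ => Matrix (Fin (N + 1)) (Fin (N + 1)) ℂ) (Matrix.single 0 0 1)
        (fun l => F (r.succAbove l)) := by
    funext j
    refine Fin.cases ?_ (fun l => ?_) j
    · rw [Fin.cycleRange_symm_zero, Function.update_self, Fin.cons_zero]
    · rw [Fin.cycleRange_symm_succ, Function.update_of_ne (Fin.succAbove_ne r l), Fin.cons_succ]
  rw [e]
  exact hA11 N 0 m (fun _ _ => (1 : ℂ)) (fun l => F (r.succAbove l))

theorem exp0 {N m : ℕ} (hA1 : T_A1) (hA2 : T_A2) (hA7 : T_A7) (hA11 : T_A11)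
    (a : Fin (m + 1) → ℂ) (B : Fin (m + 1) → Matrix (Fin N) (Fin N) ℂ) :
    mixD (p := 0) (fun _ _ => (1 : ℂ)) (fun j => bk (a j) (B j)) =
      ∑ j, a j * mixD (p := 0) (fun _ _ => (1 : ℂ)) (fun l => B (j.succAbove l)) := by
  classical
  have key : ∀ s : Finset (Fin (m + 1)),
      mixD (p := 0) (fun _ _ => (1 : ℂ)) (fun j => bk (if j ∈ s then a j else 0) (B j)) =
      ∑ j ∈ s, a j * mixD (p := 0) (fun _ _ => (1 : ℂ)) (fun l => B (j.succAbove l)) := by
    intro s
    induction s using Finset.induction_on with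
    | empty =>
      rw [Finset.sum_empty]
      refine hA7 (Fin (N + 1)) 0 (m + 1) _ _ (Pi.single 0 1) ?_ ?_ ?_
      · intro h
        have := congrFun h 0
        simp at this
      · intro I J j
        exact j.elim0
      · intro j b
        rw [Finset.sum_eq_single 0]
        · rw [if_neg (Finset.notMem_empty j)]
          refine Fin.cases ?_ (fun b' => ?_) b
          · show _ * (0 : ℂ) = 0
            exact mul_zero _
          · show _ * (0 : ℂ) = 0
            exact mul_zero _
        · intro c _ hc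
          rw [Pi.single_eq_of_ne hc, zero_mul]
        · intro h
          exact absurd (Finset.mem_univ _) h
    | insert r s hr ih =>
      rw [Finset.sum_insert hr, ← ih]
      have e1 : (fun j => bk (if j ∈ insert r s then a j else 0) (B j)) =
          Function.update (fun j => bk (if j ∈ s then a j else 0) (B j)) r
            (a r • Matrix.single 0 0 1 + bk 0 (B r)) := by
        funext j
        by_cases h : j = r
        · subst h
          rw [Function.update_self, if_pos (Finset.mem_insert_self _ _), bk_split]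
        · rw [Function.update_of_ne h]
          congr 1
          by_cases hs : j ∈ s
          · rw [if_pos hs, if_pos (Finset.mem_insert_of_mem hs)]
          · rw [if_neg hs, if_neg (fun h' => (Finset.mem_insert.1 h').elim h hs)]
      have e2 : (fun j => bk (if j ∈ s then a j else 0) (B j)) =
          Function.update (fun j => bk (if j ∈ s then a j else 0) (B j)) r (bk 0 (B r)) := by
        funext j
        by_cases h : j = r
        · subst h
          rw [Function.update_self, if_neg hr]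
        · rw [Function.update_of_ne h]
      have h1 := (hA1 (Fin (N + 1)) 0 (m + 1) (fun _ _ => (1 : ℂ)) (fun _ _ => (1 : ℂ))
        (fun j => bk (if j ∈ s then a j else 0) (B j)) r (a r • Matrix.single 0 0 1)
        (bk 0 (B r)) 0).1
      have h2 := (hA1 (Fin (N + 1)) 0 (m + 1) (fun _ _ => (1 : ℂ)) (fun _ _ => (1 : ℂ))
        (fun j => bk (if j ∈ s then a j else 0) (B j)) r (Matrix.single 0 0 1) 0 (a r)).2.1
      rw [e1, h1, h2, front hA2 hA11, ← e2]
      rfl
  have h := key Finset.univ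
  simp only [Finset.mem_univ, if_true] at h
  exact h

/-! ### Pull-backs -/

theorem pull0 {N M : ℕ} (G : Fin N → MvPolynomial (Fin M) ℂ) (z : Fin M → ℂ) :
    pull G (om N 0) z = fun _ _ => 1 := by
  funext I J
  unfold pull
  simp [om]

theorem pot_cd {N : ℕ} {u : (Fin N → ℂ) → ℝ} (hu : Pot u) {y : Fin N → ℂ} (hy : y ≠ 0) :
    ContDiffAt ℝ 2 (fun w => (u w : ℂ)) y := by
  have h6 : ContDiffAt ℝ ∞ u y := hu.smooth.contDiffAt (isOpen_compl_singleton.mem_nhds hy)
  have h7 : ContDiffAt ℝ 2 u y := h6.of_le (WithTop.coe_le_coe.mpr (le_top : (2 : ℕ∞) ≤ ⊤))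
  exact Complex.ofRealCLM.contDiff.contDiffAt.comp _ h7

theorem psd_comp (h4 : T_W4) {N M : ℕ} (G : Fin N → MvPolynomial (Fin M) ℂ)
    {u : (Fin N → ℂ) → ℝ} (hu : Pot u) {z : Fin M → ℂ} (hz : ev G z ≠ 0) :
    (hessR (fun w => u (ev G w)) z).PosSemidef := by
  have h8 : hessR (fun w => u (ev G w)) z
      = ((jac G z).transpose * hessR u (ev G z)) * ((jac G z).transpose).conjTranspose := by
    ext a b
    rw [Matrix.mul_apply]
    simp only [Matrix.mul_apply, Matrix.transpose_apply, Matrix.conjTranspose_apply]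
    have h10 := h4 _ _ G (fun y : Fin N → ℂ => (u y : ℂ)) z (pot_cd hu hz) a b
    unfold hessR
    rw [h10, Finset.sum_comm]
    refine Finset.sum_congr rfl fun j _ => ?_
    rw [Finset.sum_mul]
    refine Finset.sum_congr rfl fun i _ => ?_
    have : star (jac G z j b) = conj (jac G z j b) := rfl
    rw [this]
    ring
  rw [h8]
  exact (hu.psh _ hz).mul_mul_conjTranspose_same _

theorem pull_wedge (h9 : T_D9) {N M s : ℕ} (G : Fin N → MvPolynomial (Fin M) ℂ)
    (S : Form (Fin N) s) {u : (Fin N → ℂ) → ℝ} (hu : Pot u) {z : Fin M → ℂ} (hz : ev G z ≠ 0) :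
    pull G (fun y => wedge (S y) (hessR u y)) z =
      wedge (pull G S z) (hessR (fun w => u (ev G w)) z) :=
  h9 (Fin N) (Fin M) s G S (fun w => (u w : ℂ)) z (pot_cd hu hz)

theorem slot_le {ι : Type} [Fintype ι] [DecidableEq ι] (hA1 : T_A1) (hA15 : T_A15) {p m : ℕ}
    (S : (Fin p → ι) → (Fin p → ι) → ℂ) (hS : Psd S) (H : Fin m → Matrix ι ι ℂ)
    (hH : ∀ j, (H j).PosSemidef) (K B : Matrix ι ι ℂ) (hK : K.PosSemidef) (C : ℝ)
    (hB : ((C : ℂ) • B - K).PosSemidef) :
    mixD S (Fin.cons (α := fun _ => Matrix ι ι ℂ) K H) ≤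
      (C : ℂ) * mixD S (Fin.cons (α := fun _ => Matrix ι ι ℂ) B H) := by
  have h1 := (hA1 ι p (m + 1) S S (Fin.cons (α := fun _ => Matrix ι ι ℂ) B H) 0 B 0 (C : ℂ)).2.1
  have e1 : Function.update (Fin.cons (α := fun _ => Matrix ι ι ℂ) B H :
      Fin (m + 1) → Matrix ι ι ℂ) 0 B = Fin.cons (α := fun _ => Matrix ι ι ℂ) B H := by
    rw [Fin.update_cons_zero]
  have e2 : Function.update (Fin.cons (α := fun _ => Matrix ι ι ℂ) B H :
      Fin (m + 1) → Matrix ι ι ℂ) 0 ((C : ℂ) • B) =
      Fin.cons (α := fun _ => Matrix ι ι ℂ) ((C : ℂ) • B) H := by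
    rw [Fin.update_cons_zero]
  rw [e1, e2] at h1
  rw [← h1]
  refine hA15 ι p (m + 1) S _ _ hS ?_ ?_
  · intro j
    refine Fin.cases ?_ (fun j' => ?_) j
    · exact hK
    · exact hH j'
  · intro j
    refine Fin.cases ?_ (fun j' => ?_) j
    · exact hB
    · show (H j' - H j').PosSemidef
      rw [sub_self]
      exact Matrix.PosSemidef.zero

theorem main (hA1 : T_A1) (hA2 : T_A2) (hA3 : T_A3) (hA7 : T_A7) (hA11 : T_A11)
    (hA15 : T_A15) (hD2 : T_D2) (hD7 : T_D7) (hD9 : T_D9) (hW4 : T_W4) (hL3 : T_L3) {N : ℕ}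
    (C : ℝ) (hC : 0 ≤ C) (G : Fin N → MvPolynomial (Fin (N + 1)) ℂ)
    (Φ : Fin N → MvPolynomial (Fin N) ℂ) (z : Fin (N + 1) → ℂ) (x : Fin N → ℂ)
    (hz : ev G z ≠ 0) (hx : ev Φ x ≠ 0)
    (hL : ((C : ℂ) • bk 1 (hessR (fun x => ell (ev Φ x)) x) -
      hessR (fun z => ell (ev G z)) z).PosSemidef) :
    ∀ (s m : ℕ) (a : Fin (m + 1) → ℝ) (B : Fin (m + 1) → Matrix (Fin N) (Fin N) ℂ),
    (∀ j, 0 ≤ a j) → (∀ j, (B j).PosSemidef) →
    mixD (pull G (om N s) z) (fun j => bk (a j : ℂ) (B j)) ≤
      (C : ℂ) ^ s * (∑ j, (a j : ℂ) * mixD (pull Φ (om N s) x) (fun l => B (j.succAbove l)) +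
        (s : ℂ) * mixD (pull Φ (om N (s - 1)) x) B) := by
  have hell : Pot (ell : (Fin N → ℂ) → ℝ) := (hL3 N).1
  have hC' : (0 : ℂ) ≤ (C : ℂ) := by exact_mod_cast hC
  obtain ⟨L, hLdef⟩ : ∃ L, L = hessR (fun x => ell (ev Φ x)) x := ⟨_, rfl⟩
  have hLp : L.PosSemidef := hLdef ▸ psd_comp hW4 Φ hell hx
  have hLx : ∀ (s m : ℕ) (B : Fin m → Matrix (Fin N) (Fin N) ℂ),
      mixD (pull Φ (om N (s + 1)) x) B = mixD (pull Φ (om N s) x)
        (Fin.cons (α := fun _ => Matrix (Fin N) (Fin N) ℂ) L B) := by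
    intro s m B
    have h1 : pull Φ (om N (s + 1)) x = wedge (pull Φ (om N s) x) L := by
      rw [hLdef]
      exact pull_wedge hD9 Φ (om N s) hell hx
    rw [h1, hA3]
  rw [← hLdef] at hL
  intro s
  induction s with
  | zero =>
    intro m a B _ _
    rw [pull0, pull0, exp0 hA1 hA2 hA7 hA11]
    simp
  | succ s ih =>
    intro m a B ha hB
    have h1 : pull G (om N (s + 1)) z = wedge (pull G (om N s) z)
        (hessR (fun w => ell (ev G w)) z) := pull_wedge hD9 G (om N s) hell hz
    have h2 : Psd (pull G (om N s) z) := hD2 _ _ s G (om N s) z ((hD7 N s).1.cp.psd _ hz)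
    have h3 := slot_le hA1 hA15 (pull G (om N s) z) h2 (fun j => bk (a j : ℂ) (B j))
      (fun j => bk_psd (ha j) (hB j)) (hessR (fun w => ell (ev G w)) z) (bk 1 L)
      (psd_comp hW4 G hell hz) C hL
    have h4 : (Fin.cons (α := fun _ => Matrix (Fin (N + 1)) (Fin (N + 1)) ℂ) (bk 1 L)
        (fun j => bk (a j : ℂ) (B j)) : Fin (m + 1 + 1) → _) =
        fun j => bk (((Fin.cons (α := fun _ => ℝ) 1 a : Fin (m + 1 + 1) → ℝ) j : ℝ) : ℂ)
          ((Fin.cons (α := fun _ => Matrix (Fin N) (Fin N) ℂ) L B :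
            Fin (m + 1 + 1) → Matrix (Fin N) (Fin N) ℂ) j) := by
      funext j
      refine Fin.cases ?_ (fun j' => ?_) j
      · simp only [Fin.cons_zero, Complex.ofReal_one]
      · simp only [Fin.cons_succ]
    have h5 := ih (m + 1) (Fin.cons (α := fun _ => ℝ) 1 a)
      (Fin.cons (α := fun _ => Matrix (Fin N) (Fin N) ℂ) L B)
      (fun j => by
        refine Fin.cases ?_ (fun j' => ?_) j
        · simp
        · simpa using ha j')
      (fun j => by
        refine Fin.cases ?_ (fun j' => ?_) j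
        · simpa using hLp
        · simpa using hB j')
    rw [h1, hA3]
    refine h3.trans ?_
    rw [h4]
    refine (mul_le_mul_of_nonneg_left h5 hC').trans (le_of_eq ?_)
    have e1 : (∑ j : Fin (m + 1 + 1), (((Fin.cons (α := fun _ => ℝ) 1 a :
          Fin (m + 1 + 1) → ℝ) j : ℝ) : ℂ) * mixD (pull Φ (om N s) x)
          (fun l => (Fin.cons (α := fun _ => Matrix (Fin N) (Fin N) ℂ) L B :
            Fin (m + 1 + 1) → Matrix (Fin N) (Fin N) ℂ) (j.succAbove l))) =
        mixD (pull Φ (om N s) x) B + ∑ j : Fin (m + 1), (a j : ℂ) *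
          mixD (pull Φ (om N (s + 1)) x) (fun l => B (j.succAbove l)) := by
      rw [Fin.sum_univ_succ]
      congr 1
      · simp only [Fin.cons_zero, Complex.ofReal_one, one_mul, Fin.zero_succAbove, Fin.cons_succ]
      · refine Finset.sum_congr rfl fun j _ => ?_
        rw [Fin.cons_succ, hLx]
        congr 2
        funext l
        cases m with
        | zero =>
          have hl : l = 0 := Fin.fin_one_eq_zero l
          subst hl
          rw [Fin.succ_succAbove_zero]
          rfl
        | succ m =>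
          refine Fin.cases ?_ (fun l' => ?_) l
          · rw [Fin.succ_succAbove_zero, Fin.cons_zero, Fin.cons_zero]
          · rw [Fin.succ_succAbove_succ, Fin.cons_succ, Fin.cons_succ]
    have e2 : (s : ℂ) * mixD (pull Φ (om N (s - 1)) x)
        (Fin.cons (α := fun _ => Matrix (Fin N) (Fin N) ℂ) L B) =
        (s : ℂ) * mixD (pull Φ (om N s) x) B := by
      cases s with
      | zero => simp
      | succ s => rw [hLx s, Nat.add_sub_cancel]
    rw [e1, e2, Nat.add_sub_cancel]
    push_cast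
    ring

end

end Pool.Agent.H10.EM.MRC
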