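import Pool.Agent.H10.EM.MRCa

/-!
# Board emd_modules, row MRC: the costs of the closed forms, densities
-/

set_option autoImplicit false

namespace Pool.Agent.H10.EM.MRC

open scoped BigOperators ComplexConjugate ContDiff ComplexOrder
open MeasureTheory Pool.Agent.H92.EQ Pool.Agent.H92.EM
open Pool.Agent.H14.EQ (GP ev_GP')

noncomputable section

/-! ### Matrices near the identity -/

theorem sq3 (a b : ℂ) : ‖a + b‖ ^ 2 ≤ 3 / 2 * ‖a‖ ^ 2 + 3 * ‖b‖ ^ 2 := by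
  have h1 := norm_add_le a b
  have h2 := norm_nonneg (a + b)
  nlinarith [sq_nonneg (‖a‖ - 2 * ‖b‖), norm_nonneg a, norm_nonneg b]

theorem nsq_near {k : ℕ} (A : Matrix (Fin (k + 1)) (Fin (k + 1)) ℂ)
    (hA : ∀ a b, ‖A a b - (1 : Matrix (Fin (k + 1)) (Fin (k + 1)) ℂ) a b‖ ≤ th0 k)
    (y : Fin (k + 1) → ℂ) :
    nsq y / 2 ≤ nsq (A.mulVec y) ∧ nsq (A.mulVec y) ≤ 2 * nsq y := by
  have hth : 0 ≤ th0 k := by unfold th0; positivity
  obtain ⟨e, he⟩ : ∃ e : Fin (k + 1) → ℂ, e = (A - 1).mulVec y := ⟨_, rfl⟩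
  have hAy : ∀ a, A.mulVec y a = y a + e a := by
    intro a
    rw [he, Matrix.sub_mulVec, Matrix.one_mulVec, Pi.sub_apply]
    ring
  have h0 : 0 ≤ nsq y := Finset.sum_nonneg fun i _ => by positivity
  have h1 : ∀ a, ‖e a‖ ^ 2 ≤ ((k : ℝ) + 1) * (th0 k ^ 2 * nsq y) := by
    intro a
    have h2 : ‖e a‖ ≤ ∑ b, th0 k * ‖y b‖ := by
      rw [he]
      unfold Matrix.mulVec dotProduct
      refine (norm_sum_le _ _).trans (Finset.sum_le_sum fun b _ => ?_)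
      rw [norm_mul]
      exact mul_le_mul_of_nonneg_right (hA a b) (norm_nonneg _)
    have h3 : (∑ b, th0 k * ‖y b‖) ^ 2 ≤ ((k : ℝ) + 1) * ∑ b, (th0 k * ‖y b‖) ^ 2 := by
      have := sq_sum_le_card_mul_sum_sq (s := (Finset.univ : Finset (Fin (k + 1))))
        (f := fun b => th0 k * ‖y b‖)
      simpa using this
    have h4 : ∑ b, (th0 k * ‖y b‖) ^ 2 = th0 k ^ 2 * nsq y := by
      unfold nsq
      rw [Finset.mul_sum]
      exact Finset.sum_congr rfl fun b _ => by ring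
    rw [h4] at h3
    exact (pow_le_pow_left₀ (norm_nonneg _) h2 2).trans h3
  have h2 : ∑ a : Fin (k + 1), ‖e a‖ ^ 2 ≤ nsq y / 64 := by
    refine (Finset.sum_le_sum fun a _ => h1 a).trans (le_of_eq ?_)
    rw [Finset.sum_const, Finset.card_univ, Fintype.card_fin, nsmul_eq_mul]
    unfold th0
    push_cast
    field_simp
    ring
  constructor
  · have h3 : nsq y ≤ 3 / 2 * nsq (A.mulVec y) + 3 * ∑ a : Fin (k + 1), ‖e a‖ ^ 2 := by
      unfold nsq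
      rw [Finset.mul_sum, Finset.mul_sum, ← Finset.sum_add_distrib]
      refine Finset.sum_le_sum fun a _ => ?_
      have h4 := sq3 (A.mulVec y a) (-(e a))
      rw [norm_neg, hAy, add_neg_cancel_right] at h4
      rw [hAy]
      exact h4
    linarith
  · have h3 : nsq (A.mulVec y) ≤ 3 / 2 * nsq y + 3 * ∑ a : Fin (k + 1), ‖e a‖ ^ 2 := by
      unfold nsq
      rw [Finset.mul_sum, Finset.mul_sum, ← Finset.sum_add_distrib]
      refine Finset.sum_le_sum fun a _ => ?_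
      rw [hAy]
      exact sq3 _ _
    linarith

theorem nsq_pos' {N : ℕ} {y : Fin N → ℂ} (hy : y ≠ 0) : 0 < nsq y :=
  Pool.Agent.H39.EQ.TB.nsq_pos hy

theorem near_ne {k : ℕ} (A : Matrix (Fin (k + 1)) (Fin (k + 1)) ℂ)
    (hA : ∀ a b, ‖A a b - (1 : Matrix (Fin (k + 1)) (Fin (k + 1)) ℂ) a b‖ ≤ th0 k)
    {y : Fin (k + 1) → ℂ} (hy : y ≠ 0) : A.mulVec y ≠ 0 := by
  intro h
  have h1 := (nsq_near A hA y).1
  rw [h] at h1
  have h2 := nsq_pos' hy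
  have h3 : nsq (0 : Fin (k + 1) → ℂ) = 0 := by simp [nsq]
  rw [h3] at h1
  linarith

theorem near_det {k : ℕ} (A : Matrix (Fin (k + 1)) (Fin (k + 1)) ℂ)
    (hA : ∀ a b, ‖A a b - (1 : Matrix (Fin (k + 1)) (Fin (k + 1)) ℂ) a b‖ ≤ th0 k) :
    A.det ≠ 0 := by
  intro h
  obtain ⟨v, hv, hv2⟩ := Matrix.exists_mulVec_eq_zero_iff.2 h
  exact near_ne A hA hv hv2

theorem near_rep {k : ℕ} {X : Fin (k + 1) → Fin (k + 1) → ℂ} {i j : Fin (k + 1)} {t : ℂ}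
    (hX : ∀ a b, ‖X a b - (1 : Matrix (Fin (k + 1)) (Fin (k + 1)) ℂ) a b‖ ≤ th0 k)
    (ht : ‖t - (1 : Matrix (Fin (k + 1)) (Fin (k + 1)) ℂ) i j‖ ≤ th0 k) (a b : Fin (k + 1)) :
    ‖Matrix.of (rep X i j t) a b - (1 : Matrix (Fin (k + 1)) (Fin (k + 1)) ℂ) a b‖ ≤ th0 k := by
  rw [Matrix.of_apply, Pool.Agent.H14.EQ.rep_apply]
  split_ifs with h
  · rw [h.1, h.2]
    exact ht
  · exact hX a b

theorem ev_cmp {N : ℕ} (A : Matrix (Fin N) (Fin N) ℂ) (Φ : Fin N → MvPolynomial (Fin N) ℂ)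
    (y : Fin N → ℂ) : ev (Pool.Agent.H92.EQ.cmp (lin A) Φ) y = A.mulVec (ev Φ y) := by
  funext i'
  show MvPolynomial.eval y (Pool.Agent.H92.EQ.cmp (lin A) Φ i') = ∑ l, A i' l * ev Φ y l
  rw [Pool.Agent.H14.EQ.cmp_lin, map_sum]
  refine Finset.sum_congr rfl fun l _ => ?_
  rw [map_mul, MvPolynomial.eval_C]
  rfl

theorem pot_wH {k : ℕ} (hL5 : T_L5) (b : Fin (k + 1)) {δ : ℝ} (hδ : 0 < δ) :
    Pot (wH (k := k) b δ) := by
  have h2 := hL5 (k + 1) 1 (MvPolynomial.X b) δ le_rfl (MvPolynomial.isHomogeneous_X ℂ b) hδ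
  have h3 : (fun z : Fin (k + 1) → ℂ => (1 / (2 * ((1 : ℕ) : ℝ))) *
      Real.log (‖MvPolynomial.eval z (MvPolynomial.X b)‖ ^ 2 + δ ^ 2 * nsq z ^ 1)) =
      wH b δ := by
    funext z
    unfold wH
    rw [MvPolynomial.eval_X, pow_one, Nat.cast_one, mul_one]
  rwa [h3] at h2

theorem rad_psd {ι : Type} [Fintype ι] [DecidableEq ι] (z : ι → ℂ) :
    (Rad z).PosSemidef := by
  have h : Rad z = Matrix.vecMulVec (fun a => conj (z a) / (2 * (nsq z : ℂ)))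
      (star (fun a => conj (z a) / (2 * (nsq z : ℂ)))) := by
    ext a b
    unfold Rad
    rw [Matrix.vecMulVec_apply, Pi.star_apply, RCLike.star_def, map_div₀, map_mul,
      Complex.conj_conj, Complex.conj_ofReal, Complex.conj_ofNat]
    rw [div_mul_div_comm]
    congr 1
    ring
  rw [h]
  exact Matrix.posSemidef_vecMulVec_self_star _

/-! ### The slots -/

/-- the slots on `C^N` -/
def sl {N m : ℕ} (v : Fin m → (Fin N → ℂ) → ℝ) (x : Fin N → ℂ) :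
    Fin (m + 1) → Matrix (Fin N) (Fin N) ℂ :=
  Fin.snoc (α := fun _ => Matrix (Fin N) (Fin N) ℂ) (fun l => hessR (v l) x) (Rad x)

theorem sl_psd {N m : ℕ} {v : Fin m → (Fin N → ℂ) → ℝ} (hv : ∀ l, Pot (v l)) {x : Fin N → ℂ}
    (hx : x ≠ 0) (l : Fin (m + 1)) : (sl v x l).PosSemidef := by
  unfold sl
  refine Fin.lastCases ?_ (fun i => ?_) l
  · rw [Fin.snoc_last]
    exact rad_psd x
  · rw [Fin.snoc_castSucc]
    exact (hv i).psh x hx

theorem sl_bk {N m : ℕ} (hW9 : T_W9) (v : Fin m → (Fin N → ℂ) → ℝ) (t : ℂ) {x : Fin N → ℂ}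
    (hx : x ≠ 0) :
    (Fin.snoc (α := fun _ => Matrix (Fin (N + 1)) (Fin (N + 1)) ℂ)
      (fun j => hessR ((fun l z => v l (tl z)) j) (ct t x)) (RadT (ct t x)) :
      Fin (m + 1) → Matrix (Fin (N + 1)) (Fin (N + 1)) ℂ) =
    fun j => bk (((0 : ℝ) : ℝ) : ℂ) (sl v x j) := by
  have htl : tl (ct t x) = x := Pool.Agent.H88.EQ.LArow.tl_ct t x
  funext l
  unfold sl
  refine Fin.lastCases ?_ (fun i => ?_) l
  · rw [Fin.snoc_last, Fin.snoc_last,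
      bk_eq (RadT (ct t x)) (Pool.Agent.H51.EHD.rad_row (ct t x)),
      Pool.Agent.H51.EHD.rad_sub hW9 (by rw [htl]; exact hx), htl, Complex.ofReal_zero]
  · rw [Fin.snoc_castSucc, Fin.snoc_castSucc,
      bk_eq (hessR (fun z => v i (tl z)) (ct t x)) (Pool.Agent.H51.EHD.hess_row (v i) (ct t x)),
      Pool.Agent.H88.EQ.LArow.hessR_tl, htl, Complex.ofReal_zero]

theorem sl_cons {N m : ℕ} (w : (Fin N → ℂ) → ℝ) (v : Fin m → (Fin N → ℂ) → ℝ)
    (x : Fin N → ℂ) : sl (Fin.cons (α := fun _ => (Fin N → ℂ) → ℝ) w v) x =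
      Fin.cons (α := fun _ => Matrix (Fin N) (Fin N) ℂ) (hessR w x) (sl v x) := by
  unfold sl
  funext l
  refine Fin.lastCases ?_ (fun i => ?_) l
  · rw [Fin.snoc_last, ← Fin.succ_last, Fin.cons_succ, Fin.snoc_last]
  · rw [Fin.snoc_castSucc]
    refine Fin.cases ?_ (fun i' => ?_) i
    · rw [Fin.cons_zero, Fin.castSucc_zero, Fin.cons_zero]
    · rw [Fin.cons_succ, ← Fin.succ_castSucc, Fin.cons_succ, Fin.snoc_castSucc]

/-! ### The bounds of the densities -/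

/-- the coefficient of the moving entry -/
def ph {k : ℕ} (Φ : Fin (k + 1) → MvPolynomial (Fin (k + 1)) ℂ)
    (X : Fin (k + 1) → Fin (k + 1) → ℂ) (i j b : Fin (k + 1)) (δ : ℝ) (t : ℂ)
    (x : Fin (k + 1) → ℂ) : ℝ :=
  if i = b then δ ^ 2 * nsq ((Matrix.of (rep X i j t)).mulVec (ev Φ x)) * ‖ev Φ x j‖ ^ 2 /
    (‖(Matrix.of (rep X i j t)).mulVec (ev Φ x) b‖ ^ 2 +
      δ ^ 2 * nsq ((Matrix.of (rep X i j t)).mulVec (ev Φ x))) ^ 2 else 0

theorem ph_nonneg {k : ℕ} (Φ : Fin (k + 1) → MvPolynomial (Fin (k + 1)) ℂ)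
    (X : Fin (k + 1) → Fin (k + 1) → ℂ) (i j b : Fin (k + 1)) (δ : ℝ) (t : ℂ)
    (x : Fin (k + 1) → ℂ) : 0 ≤ ph Φ X i j b δ t x := by
  unfold ph
  split_ifs
  · have h0 : 0 ≤ nsq ((Matrix.of (rep X i j t)).mulVec (ev Φ x)) :=
      Finset.sum_nonneg fun i _ => by positivity
    positivity
  · exact le_rfl

/-- the potential on the slice -/
def wt {k : ℕ} (Φ : Fin (k + 1) → MvPolynomial (Fin (k + 1)) ℂ)
    (X : Fin (k + 1) → Fin (k + 1) → ℂ) (i j b : Fin (k + 1)) (δ : ℝ) (t : ℂ)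
    (x : Fin (k + 1) → ℂ) : ℝ := wH b δ ((Matrix.of (rep X i j t)).mulVec (ev Φ x))

theorem qt_bounds (hMRH : T_MRH) (hA1 : T_A1) (hA2 : T_A2) (hA3 : T_A3) (hA4 : T_A4)
    (hA7 : T_A7) (hA11 : T_A11) (hA15 : T_A15) (hD2 : T_D2) (hD4 : T_D4) (hD7 : T_D7)
    (hD9 : T_D9) (hW4 : T_W4) (hW9 : T_W9) (hL3 : T_L3) (hL5 : T_L5) (k : ℕ) :
    ∃ C : ℝ, 0 < C ∧ ∀ (D : ℕ) (Φ : Fin (k + 1) → MvPolynomial (Fin (k + 1)) ℂ), 1 ≤ D →
    IsH D Φ → ∀ (X : Fin (k + 1) → Fin (k + 1) → ℂ) (i j b : Fin (k + 1)) (t : ℂ) (δ : ℝ)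
    (x : Fin (k + 1) → ℂ),
    (∀ a b, ‖X a b - (1 : Matrix (Fin (k + 1)) (Fin (k + 1)) ℂ) a b‖ ≤ th0 k) →
    ‖t - (1 : Matrix (Fin (k + 1)) (Fin (k + 1)) ℂ) i j‖ ≤ th0 k → 0 < δ → δ ≤ 1 → x ≠ 0 →
    ∀ (s q : ℕ) (v : Fin (q + 1) → (Fin (k + 1) → ℂ) → ℝ), (∀ l, Pot (v l)) →
    0 ≤ QT (pull (GP Φ X i j) (om (k + 1) (s + 1))) (fun l z => v l (tl z)) (ct t x) ∧
    QT (pull (GP Φ X i j) (om (k + 1) (s + 1))) (fun l z => v l (tl z)) (ct t x) ≤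
      C ^ (s + 1) * ((s + 1 : ℝ) * Q (pull Φ (om (k + 1) s)) v x) ∧
    0 ≤ QT (pull (GP Φ X i j) (TF s b δ)) (fun l z => v l (tl z)) (ct t x) ∧
    QT (pull (GP Φ X i j) (TF s b δ)) (fun l z => v l (tl z)) (ct t x) ≤
      C ^ (s + 1) * ((1 + ph Φ X i j b δ t x) * Q (pull Φ (om (k + 1) s)) v x +
        (s : ℝ) * Q (pull Φ (om (k + 1) (s - 1)))
          (Fin.cons (α := fun _ => (Fin (k + 1) → ℂ) → ℝ) (wt Φ X i j b δ t) v) x) := by
  obtain ⟨C, hC, hMRH⟩ := hMRH k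
  refine ⟨C, hC, ?_⟩
  intro D Φ hD hΦ X i j b t δ x hX ht hδ hδ1 hx s q v hv
  have hy : ev Φ x ≠ 0 := fun h => hx (hΦ.nd x h)
  obtain ⟨G, hG⟩ : ∃ G, G = GP Φ X i j := ⟨_, rfl⟩
  obtain ⟨z, hz⟩ : ∃ z, z = ct t x := ⟨_, rfl⟩
  have htl : tl (ct t x) = x := Pool.Agent.H88.EQ.LArow.tl_ct t x
  have hevx : ∀ y : Fin (k + 1) → ℂ, ev G (ct t y) =
      (Matrix.of (rep X i j t)).mulVec (ev Φ y) := by
    intro y
    rw [hG, ev_GP', Pool.Agent.H88.EQ.LArow.tl_ct]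
    rfl
  have hGz : ev G z ≠ 0 := by
    rw [hz, hevx]
    exact near_ne _ (near_rep hX ht) hy
  have hH := hMRH D Φ hD hΦ X i j b t δ x hX ht hδ hδ1 hx _ rfl
  have hH1 : ((C : ℂ) • bk 1 (hessR (fun x => ell (ev Φ x)) x) -
      hessR (fun z => ell (ev G z)) z).PosSemidef := by
    rw [hG, hz]
    exact hH.1
  have hH2 : ((C : ℂ) • bk ((1 + ph Φ X i j b δ t x : ℝ) : ℂ) (hessR (wt Φ X i j b δ t) x) -
      hessR (fun z => wH b δ (ev G z)) z).PosSemidef := by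
    rw [hG, hz]
    exact hH.2
  have hell : Pot (ell : (Fin (k + 1) → ℂ) → ℝ) := (hL3 (k + 1)).1
  have hwH : Pot (wH (k := k) b δ) := pot_wH hL5 b hδ
  have hps : ∀ s, Psd (pull G (om (k + 1) s) z) := fun s =>
    hD2 _ _ s G (om (k + 1) s) z ((hD7 (k + 1) s).1.cp.psd _ hGz)
  have hmain := main hA1 hA2 hA3 hA7 hA11 hA15 hD2 hD7 hD9 hW4 hL3 C hC.le G Φ z x hGz hy hH1
  have hsl : ∀ j, (bk (((0 : ℝ) : ℝ) : ℂ) (sl v x j)).PosSemidef := fun j =>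
    bk_psd le_rfl (sl_psd hv hx j)
  have hQT : ∀ {p : ℕ} (S : Form (Fin (k + 1 + 1)) p), QT S (fun l z => v l (tl z)) z =
      (mixD (S z) (fun j => bk (((0 : ℝ) : ℝ) : ℂ) (sl v x j))).re := by
    intro p S
    unfold QT
    rw [hz, sl_bk hW9 v t hx]
  have hTF : pull G (TF s b δ) z = wedge (pull G (om (k + 1) s) z)
      (hessR (fun w => wH b δ (ev G w)) z) := pull_wedge hD9 G (om (k + 1) s) hwH hGz
  have hwp : (hessR (fun w => wH b δ (ev G w)) z).PosSemidef := psd_comp hW4 G hwH hGz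
  have hWp : (hessR (wt Φ X i j b δ t) x).PosSemidef := by
    have h2 : wt Φ X i j b δ t = fun y => wH b δ (ev (Pool.Agent.H92.EQ.cmp
        (lin (Matrix.of (rep X i j t))) Φ) y) := by
      funext y
      rw [ev_cmp]
      rfl
    rw [h2]
    refine psd_comp hW4 _ hwH ?_
    rw [ev_cmp]
    exact near_ne _ (near_rep hX ht) hy
  rw [← hG, ← hz, hQT, hQT]
  refine ⟨?_, ?_, ?_, ?_⟩
  · exact (Complex.le_def.1 (hA4 _ _ _ _ _ (hps (s + 1)) hsl)).1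
  · have h1 := hmain (s + 1) (q + 1) (fun _ => 0) (sl v x) (fun _ => le_rfl) (sl_psd hv hx)
    have h2 := (Complex.le_def.1 h1).1
    refine h2.trans (le_of_eq ?_)
    have e1 : (C : ℂ) ^ (s + 1) * (∑ j : Fin (q + 1 + 1), ((0 : ℝ) : ℂ) *
        mixD (pull Φ (om (k + 1) (s + 1)) x) (fun l => sl v x (j.succAbove l)) +
        ((s + 1 : ℕ) : ℂ) * mixD (pull Φ (om (k + 1) (s + 1 - 1)) x) (sl v x)) =
        ((C ^ (s + 1) * (s + 1) : ℝ) : ℂ) * mixD (pull Φ (om (k + 1) s) x) (sl v x) := by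
      rw [Nat.add_sub_cancel]
      simp only [Complex.ofReal_zero, zero_mul, Finset.sum_const_zero, zero_add]
      push_cast
      ring
    rw [e1, Complex.re_ofReal_mul]
    unfold Q sl
    ring
  · rw [hTF]
    exact (Complex.le_def.1 (hA4 _ _ _ _ _ (hD4 _ _ _ _ (hps s) hwp) hsl)).1
  · rw [hTF, hA3]
    have hph : 0 ≤ 1 + ph Φ X i j b δ t x := by
      have := ph_nonneg Φ X i j b δ t x
      linarith
    have h1 := slot_le hA1 hA15 (pull G (om (k + 1) s) z) (hps s) _ hsl _ _ hwp C hH2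
    have h2 : (Fin.cons (α := fun _ => Matrix (Fin (k + 1 + 1)) (Fin (k + 1 + 1)) ℂ)
        (bk ((1 + ph Φ X i j b δ t x : ℝ) : ℂ) (hessR (wt Φ X i j b δ t) x))
        (fun j => bk (((0 : ℝ) : ℝ) : ℂ) (sl v x j)) : Fin (q + 1 + 1 + 1) → _) =
        fun r => bk (((Fin.cons (α := fun _ => ℝ) (1 + ph Φ X i j b δ t x) (fun _ => 0) :
          Fin (q + 1 + 1 + 1) → ℝ) r : ℝ) : ℂ)
          ((Fin.cons (α := fun _ => Matrix (Fin (k + 1)) (Fin (k + 1)) ℂ)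
            (hessR (wt Φ X i j b δ t) x) (sl v x) :
            Fin (q + 1 + 1 + 1) → Matrix (Fin (k + 1)) (Fin (k + 1)) ℂ) r) := by
      funext r
      refine Fin.cases ?_ (fun r' => ?_) r
      · simp only [Fin.cons_zero]
      · simp only [Fin.cons_succ]
    have h3 := hmain s (q + 1 + 1) (Fin.cons (α := fun _ => ℝ) (1 + ph Φ X i j b δ t x)
      (fun _ => 0)) (Fin.cons (α := fun _ => Matrix (Fin (k + 1)) (Fin (k + 1)) ℂ)
        (hessR (wt Φ X i j b δ t) x) (sl v x))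
      (fun j => by
        refine Fin.cases ?_ (fun j' => ?_) j
        · simpa using hph
        · simp)
      (fun j => by
        refine Fin.cases ?_ (fun j' => ?_) j
        · simpa using hWp
        · simpa using sl_psd hv hx j')
    rw [h2] at h1
    have hC' : (0 : ℂ) ≤ (C : ℂ) := by exact_mod_cast hC.le
    have h4 := (Complex.le_def.1 (h1.trans (mul_le_mul_of_nonneg_left h3 hC'))).1
    refine h4.trans (le_of_eq ?_)
    have e1 : (∑ r : Fin (q + 1 + 1 + 1), (((Fin.cons (α := fun _ => ℝ)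
          (1 + ph Φ X i j b δ t x) (fun _ => 0) : Fin (q + 1 + 1 + 1) → ℝ) r : ℝ) : ℂ) *
          mixD (pull Φ (om (k + 1) s) x)
          (fun l => (Fin.cons (α := fun _ => Matrix (Fin (k + 1)) (Fin (k + 1)) ℂ)
            (hessR (wt Φ X i j b δ t) x) (sl v x) :
            Fin (q + 1 + 1 + 1) → Matrix (Fin (k + 1)) (Fin (k + 1)) ℂ) (r.succAbove l))) =
        ((1 + ph Φ X i j b δ t x : ℝ) : ℂ) * mixD (pull Φ (om (k + 1) s) x) (sl v x) := by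
      rw [Fin.sum_univ_succ]
      simp only [Fin.cons_zero, Fin.zero_succAbove, Fin.cons_succ, Complex.ofReal_zero, zero_mul,
        Finset.sum_const_zero, add_zero]
    rw [e1]
    have e2 : (C : ℂ) * ((C : ℂ) ^ s * (((1 + ph Φ X i j b δ t x : ℝ) : ℂ) *
        mixD (pull Φ (om (k + 1) s) x) (sl v x) + (s : ℂ) *
        mixD (pull Φ (om (k + 1) (s - 1)) x)
          (Fin.cons (α := fun _ => Matrix (Fin (k + 1)) (Fin (k + 1)) ℂ)
            (hessR (wt Φ X i j b δ t) x) (sl v x)))) =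
        ((C ^ (s + 1) : ℝ) : ℂ) * (((1 + ph Φ X i j b δ t x : ℝ) : ℂ) *
        mixD (pull Φ (om (k + 1) s) x) (sl v x) + ((s : ℝ) : ℂ) *
        mixD (pull Φ (om (k + 1) (s - 1)) x)
          (sl (Fin.cons (α := fun _ => (Fin (k + 1) → ℂ) → ℝ) (wt Φ X i j b δ t) v) x)) := by
      rw [sl_cons]
      push_cast
      ring
    rw [e2, Complex.re_ofReal_mul, Complex.add_re, Complex.re_ofReal_mul, Complex.re_ofReal_mul]
    rfl

end

end Pool.Agent.H10.EM.MRC
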