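import Pool.Agent.H10.EM.MRCb

/-!
# Board emd_modules, row MRC: the costs of the closed forms
-/

set_option autoImplicit false

namespace Pool.Agent.H10.EM.MRC

open scoped BigOperators ComplexConjugate ContDiff ComplexOrder
open MeasureTheory Pool.Agent.H92.EQ Pool.Agent.H92.EM
open Pool.Agent.H14.EQ (GP ev_GP')

noncomputable section

/-! ### Masses -/

theorem ne_ae {k : ℕ} : ∀ᵐ x : Fin (k + 1) → ℂ, x ≠ 0 :=
  compl_mem_ae_iff.2 (measure_singleton 0)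

theorem mass_int (hP1 : T_P1) (hP3 : T_P3) (hL1 : T_L1) {N p q : ℕ} (S : Form (Fin N) p)
    (u : Fin q → (Fin N → ℂ) → ℝ) (h : p + q + 1 = N) (hS : ProjForm S) (hu : ∀ j, Pot (u j)) :
    IntegrableOn (fun x => Q S u x) {z : Fin N → ℂ | 0 ≤ ell z ∧ ell z < 1} ∧
    ∫ x in {z : Fin N → ℂ | 0 ≤ ell z ∧ ell z < 1}, Q S u x = mass q S := by
  have h1 := (hP1 N p q S u (fun _ => 1) h hS fun j => (hL1 N 0 0 0 0 (u j) (u j)).2.2.1 (hu j)).1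
    (fun _ => 1) 1 measurable_const (fun z _ => by simp)
  have h2 := (hP3 N p q S u h hS hu).2.2.1
  unfold pair Iint at h2
  simp only [one_mul] at h1 h2
  exact ⟨h1, h2⟩

theorem smul0 {ι : Type} [Fintype ι] [DecidableEq ι] (hA1 : T_A1) {p m : ℕ}
    (S : (Fin p → ι) → (Fin p → ι) → ℂ) (H : Fin m → Matrix ι ι ℂ) (B : Matrix ι ι ℂ) (C : ℂ) :
    mixD S (Fin.cons (α := fun _ => Matrix ι ι ℂ) (C • B) H) =
      C * mixD S (Fin.cons (α := fun _ => Matrix ι ι ℂ) B H) := by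
  have h1 := (hA1 ι p (m + 1) S S (Fin.cons (α := fun _ => Matrix ι ι ℂ) B H) 0 B 0 C).2.1
  rwa [Fin.update_cons_zero, Fin.update_cons_zero] at h1

theorem third (hA1 : T_A1) (hP1 : T_P1) (hP3 : T_P3) (hP5 : T_P5) (hL1 : T_L1) (hL3 : T_L3)
    (hL5 : T_L5) (hD5 : T_D5) (hD7 : T_D7) (hD11 : T_D11) (hD13 : T_D13) {k s q : ℕ}
    (hk : s + 1 + q = k) {D : ℕ} {Φ : Fin (k + 1) → MvPolynomial (Fin (k + 1)) ℂ} (hD : 1 ≤ D)
    (hΦ : IsH D Φ) {X : Fin (k + 1) → Fin (k + 1) → ℂ} {i j : Fin (k + 1)}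
    (hX : ∀ a b, ‖X a b - (1 : Matrix (Fin (k + 1)) (Fin (k + 1)) ℂ) a b‖ ≤ th0 k)
    {v : Fin (q + 1) → (Fin (k + 1) → ℂ) → ℝ} (hv : ∀ l, Pot (v l)) (b : Fin (k + 1)) {δ : ℝ}
    (hδ : 0 < δ) {t : ℂ} (ht : ‖t - (1 : Matrix (Fin (k + 1)) (Fin (k + 1)) ℂ) i j‖ ≤ th0 k) :
    IntegrableOn (fun x => (s : ℝ) * Q (pull Φ (om (k + 1) (s - 1)))
      (Fin.cons (α := fun _ => (Fin (k + 1) → ℂ) → ℝ) (wt Φ X i j b δ t) v) x)
      {z : Fin (k + 1) → ℂ | 0 ≤ ell z ∧ ell z < 1} ∧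
    ∫ x in {z : Fin (k + 1) → ℂ | 0 ≤ ell z ∧ ell z < 1}, (s : ℝ) *
      Q (pull Φ (om (k + 1) (s - 1)))
      (Fin.cons (α := fun _ => (Fin (k + 1) → ℂ) → ℝ) (wt Φ X i j b δ t) v) x ≤
      (D : ℝ) ^ s * (s * |mass (q + 2) (om (k + 1) (s - 1))|) := by
  cases s with
  | zero => simp
  | succ s =>
    rw [Nat.add_sub_cancel]
    have hDR : (0 : ℝ) < D := by exact_mod_cast hD
    obtain ⟨A, hA⟩ : ∃ A, A = Matrix.of (rep X i j t) := ⟨_, rfl⟩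
    have hAH : IsH (1 * D) (Pool.Agent.H92.EQ.cmp (lin A) Φ) := by
      refine (hD11 (k + 1) 1 D (lin A) Φ le_rfl hD ?_ hΦ).1
      refine (hD13 (k + 1) A A 0).2.2.1 ?_
      rw [hA]
      exact near_det _ (near_rep hX ht)
    rw [one_mul] at hAH
    obtain ⟨w', hw'⟩ : ∃ w' : (Fin (k + 1) → ℂ) → ℝ, w' = fun z => (1 / (D : ℝ)) *
      wH b δ (ev (Pool.Agent.H92.EQ.cmp (lin A) Φ) z) := ⟨_, rfl⟩
    have hwp : Pot w' := by
      rw [hw']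
      exact (hL3 (k + 1)).2.2 D _ _ hD hAH (pot_wH hL5 b hδ)
    have hwt : wt Φ X i j b δ t = fun z => (D : ℝ) * w' z := by
      funext z
      rw [hw']
      show wH b δ ((Matrix.of (rep X i j t)).mulVec (ev Φ z)) = (D : ℝ) * ((1 / (D : ℝ)) *
        wH b δ (ev (Pool.Agent.H92.EQ.cmp (lin A) Φ) z))
      rw [ev_cmp, hA]
      field_simp
    have hS : ProjForm (pull Φ (om (k + 1) s)) := hD5 (k + 1) s D Φ _ hD hΦ (hD7 (k + 1) s).1
    have hQ : ∀ x, Q (pull Φ (om (k + 1) s))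
        (Fin.cons (α := fun _ => (Fin (k + 1) → ℂ) → ℝ) (wt Φ X i j b δ t) v) x =
        (D : ℝ) * Q (pull Φ (om (k + 1) s))
          (Fin.cons (α := fun _ => (Fin (k + 1) → ℂ) → ℝ) w' v) x := by
      intro x
      show (mixD (pull Φ (om (k + 1) s) x) (sl (Fin.cons (α := fun _ => (Fin (k + 1) → ℂ) → ℝ)
        (wt Φ X i j b δ t) v) x)).re = D * (mixD (pull Φ (om (k + 1) s) x)
          (sl (Fin.cons (α := fun _ => (Fin (k + 1) → ℂ) → ℝ) w' v) x)).re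
      rw [sl_cons, sl_cons, hwt, Pool.Agent.H39.EQ.TB.hessR_smul, smul0 hA1,
        Complex.re_ofReal_mul]
    have hm := mass_int hP1 hP3 hL1 (pull Φ (om (k + 1) s))
      (Fin.cons (α := fun _ => (Fin (k + 1) → ℂ) → ℝ) w' v) (by omega) hS
      (fun l => by
        refine Fin.cases ?_ (fun l' => ?_) l
        · exact hwp
        · exact hv l')
    have hmp := (hP5 (k + 1) s (q + 1 + 1) D (om (k + 1) s) (by omega) (hD7 (k + 1) s).1).1 Φ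
      hD hΦ
    simp only [hQ]
    constructor
    · exact (hm.1.const_mul (D : ℝ)).const_mul _
    · rw [integral_const_mul, integral_const_mul, hm.2, hmp]
      have h1 := le_abs_self (mass (q + 2) (om (k + 1) s))
      have h2 : ((s + 1 : ℕ) : ℝ) * ((D : ℝ) * ((D : ℝ) ^ s * mass (q + 1 + 1) (om (k + 1) s))) =
          (D : ℝ) ^ (s + 1) * (((s + 1 : ℕ) : ℝ) * mass (q + 2) (om (k + 1) s)) := by ring
      rw [h2]
      refine mul_le_mul_of_nonneg_left ?_ (by positivity)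
      exact mul_le_mul_of_nonneg_left h1 (by positivity)

/-! ### Continuity -/

theorem cont_Y {k : ℕ} (Φ : Fin (k + 1) → MvPolynomial (Fin (k + 1)) ℂ)
    (X : Fin (k + 1) → Fin (k + 1) → ℂ) (i j : Fin (k + 1)) :
    Continuous fun p : ℂ × (Fin (k + 1) → ℂ) =>
      (Matrix.of (rep X i j p.1)).mulVec (ev Φ p.2) := by
  refine continuous_pi fun a => ?_
  unfold Matrix.mulVec dotProduct
  refine continuous_finsetSum _ fun l _ => Continuous.mul ?_ ?_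
  · have e : (fun p : ℂ × (Fin (k + 1) → ℂ) => Matrix.of (rep X i j p.1) a l) =
        fun p => if a = i ∧ l = j then p.1 else X a l := by
      funext p
      rw [Matrix.of_apply, Pool.Agent.H14.EQ.rep_apply]
    rw [e]
    split_ifs
    · exact continuous_fst
    · exact continuous_const
  · exact (MvPolynomial.continuous_eval (Φ l)).comp continuous_snd

theorem cont_nsq {N : ℕ} : Continuous (nsq : (Fin N → ℂ) → ℝ) := by
  unfold nsq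
  fun_prop

theorem ph_meas {k : ℕ} (Φ : Fin (k + 1) → MvPolynomial (Fin (k + 1)) ℂ)
    (X : Fin (k + 1) → Fin (k + 1) → ℂ) (i j b : Fin (k + 1)) (δ : ℝ) :
    Measurable fun p : ℂ × (Fin (k + 1) → ℂ) => ph Φ X i j b δ p.1 p.2 := by
  unfold ph
  split_ifs
  · have h1 : Measurable fun p : ℂ × (Fin (k + 1) → ℂ) =>
        nsq ((Matrix.of (rep X i j p.1)).mulVec (ev Φ p.2)) :=
      (cont_nsq.comp (cont_Y Φ X i j)).measurable
    have h2 : Measurable fun p : ℂ × (Fin (k + 1) → ℂ) =>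
        ‖(Matrix.of (rep X i j p.1)).mulVec (ev Φ p.2) b‖ ^ 2 :=
      ((((continuous_apply b).comp (cont_Y Φ X i j)).norm).pow 2).measurable
    have h3 : Measurable fun p : ℂ × (Fin (k + 1) → ℂ) => ‖ev Φ p.2 j‖ ^ 2 :=
      (((MvPolynomial.continuous_eval (Φ j)).comp continuous_snd).norm.pow 2).measurable
    exact ((h1.const_mul _).mul h3).div ((h2.add (h1.const_mul _)).pow_const 2)
  · exact measurable_const

theorem ph_cont {k : ℕ} {Φ : Fin (k + 1) → MvPolynomial (Fin (k + 1)) ℂ} {D : ℕ}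
    (hΦ : IsH D Φ) {X : Fin (k + 1) → Fin (k + 1) → ℂ} {i j : Fin (k + 1)}
    (hX : ∀ a b, ‖X a b - (1 : Matrix (Fin (k + 1)) (Fin (k + 1)) ℂ) a b‖ ≤ th0 k)
    (b : Fin (k + 1)) {δ : ℝ} (hδ : 0 < δ) {t : ℂ}
    (ht : ‖t - (1 : Matrix (Fin (k + 1)) (Fin (k + 1)) ℂ) i j‖ ≤ th0 k) :
    ContinuousOn (fun x => ph Φ X i j b δ t x) {0}ᶜ := by
  unfold ph
  split_ifs
  · have h0 : Continuous fun x : Fin (k + 1) → ℂ =>
        (Matrix.of (rep X i j t)).mulVec (ev Φ x) :=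
      (cont_Y Φ X i j).comp (Continuous.prodMk continuous_const continuous_id)
    have h1 : Continuous fun x : Fin (k + 1) → ℂ =>
        nsq ((Matrix.of (rep X i j t)).mulVec (ev Φ x)) := cont_nsq.comp h0
    have h2 : Continuous fun x : Fin (k + 1) → ℂ =>
        ‖(Matrix.of (rep X i j t)).mulVec (ev Φ x) b‖ ^ 2 :=
      (((continuous_apply b).comp h0).norm).pow 2
    have h3 : Continuous fun x : Fin (k + 1) → ℂ => ‖ev Φ x j‖ ^ 2 :=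
      (MvPolynomial.continuous_eval (Φ j)).norm.pow 2
    refine ContinuousOn.div ((continuous_const.mul h1).mul h3).continuousOn
      ((h2.add (continuous_const.mul h1)).pow 2).continuousOn ?_
    intro x hx
    have hy : ev Φ x ≠ 0 := fun h => hx (hΦ.nd x h)
    have h4 : 0 < nsq ((Matrix.of (rep X i j t)).mulVec (ev Φ x)) :=
      nsq_pos' (near_ne _ (near_rep hX ht) hy)
    positivity
  · exact continuousOn_const

/-! ### The integral over the moving entry -/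

theorem ph_le {k : ℕ} {Φ : Fin (k + 1) → MvPolynomial (Fin (k + 1)) ℂ} {D : ℕ}
    (hΦ : IsH D Φ) {X : Fin (k + 1) → Fin (k + 1) → ℂ} {i j : Fin (k + 1)}
    (hX : ∀ a b, ‖X a b - (1 : Matrix (Fin (k + 1)) (Fin (k + 1)) ℂ) a b‖ ≤ th0 k)
    (b : Fin (k + 1)) {δ : ℝ} (hδ : 0 < δ) {x : Fin (k + 1) → ℂ} (hx : x ≠ 0) :
    ∃ α β : ℂ, ‖β‖ ≤ 1 ∧ ∀ t : ℂ,
      ‖t - (1 : Matrix (Fin (k + 1)) (Fin (k + 1)) ℂ) i j‖ ≤ th0 k →
      ph Φ X i j b δ t x ≤ 8 * ((δ / 2) ^ 2 * ‖β‖ ^ 2 /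
        (‖α + (t - (1 : Matrix (Fin (k + 1)) (Fin (k + 1)) ℂ) i j) * β‖ ^ 2 +
          (δ / 2) ^ 2) ^ 2) := by
  obtain ⟨c, hc⟩ : ∃ c, c = (1 : Matrix (Fin (k + 1)) (Fin (k + 1)) ℂ) i j := ⟨_, rfl⟩
  rw [← hc]
  by_cases hib : i = b
  swap
  · refine ⟨0, 0, by simp, fun t _ => ?_⟩
    unfold ph
    rw [if_neg hib]
    positivity
  subst hib
  have hy : ev Φ x ≠ 0 := fun h => hx (hΦ.nd x h)
  obtain ⟨y, hydef⟩ : ∃ y, y = ev Φ x := ⟨_, rfl⟩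
  rw [← hydef] at hy
  have hn := nsq_pos' hy
  obtain ⟨ρ, hρ⟩ : ∃ ρ, ρ = Real.sqrt (nsq y) := ⟨_, rfl⟩
  have hρ0 : 0 < ρ := hρ ▸ Real.sqrt_pos.2 hn
  have hρ2 : ρ ^ 2 = nsq y := hρ ▸ Real.sq_sqrt hn.le
  have hyj : ‖y j‖ ^ 2 ≤ nsq y :=
    Finset.single_le_sum (f := fun i => ‖y i‖ ^ 2) (fun _ _ => by positivity) (Finset.mem_univ j)
  obtain ⟨β, hβ⟩ : ∃ β : ℂ, β = y j / ρ := ⟨_, rfl⟩
  obtain ⟨α, hα⟩ : ∃ α : ℂ, α = (Matrix.of (rep X i j c)).mulVec y i / ρ := ⟨_, rfl⟩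
  have hρc : (ρ : ℂ) ≠ 0 := by exact_mod_cast hρ0.ne'
  have hβn : ‖y j‖ = ρ * ‖β‖ := by
    rw [hβ, norm_div, Complex.norm_real, Real.norm_of_nonneg hρ0.le]
    field_simp
  refine ⟨α, β, ?_, ?_⟩
  · rw [hβn, mul_pow, ← hρ2] at hyj
    have h1 : ‖β‖ ^ 2 ≤ 1 := by
      by_contra h
      push Not at h
      nlinarith [mul_lt_mul_of_pos_left h (pow_pos hρ0 2)]
    nlinarith [norm_nonneg β]
  · intro t ht
    rw [hc] at ht
    have hr := nsq_near _ (near_rep hX ht) y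
    have hY : (Matrix.of (rep X i j t)).mulVec y i = ρ * (α + (t - c) * β) := by
      have h1 : (Matrix.of (rep X i j t)).mulVec y i =
          (Matrix.of (rep X i j c)).mulVec y i + (t - c) * y j := by
        unfold Matrix.mulVec dotProduct
        rw [← sub_eq_iff_eq_add', ← Finset.sum_sub_distrib, Finset.sum_eq_single j]
        · simp only [Matrix.of_apply, Pool.Agent.H14.EQ.rep_apply, and_self, if_true]
          ring
        · intro l _ hl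
          simp only [Matrix.of_apply, Pool.Agent.H14.EQ.rep_apply, hl, and_false, if_false]
          ring
        · intro h
          exact absurd (Finset.mem_univ _) h
      rw [h1, hα, hβ]
      field_simp
    obtain ⟨u, hu⟩ : ∃ u, u = ‖α + (t - c) * β‖ := ⟨_, rfl⟩
    have hYn : ‖(Matrix.of (rep X i j t)).mulVec y i‖ = ρ * u := by
      rw [hY, norm_mul, Complex.norm_real, Real.norm_of_nonneg hρ0.le, hu]
    unfold ph
    rw [if_pos rfl, ← hydef, hYn, hβn, ← hu]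
    obtain ⟨R, hR⟩ : ∃ R, R = nsq ((Matrix.of (rep X i j t)).mulVec y) := ⟨_, rfl⟩
    rw [← hR, ← hρ2] at hr
    rw [← hR]
    have hu0 : 0 ≤ u := hu ▸ norm_nonneg _
    obtain ⟨g, hg⟩ : ∃ g, g = ‖β‖ := ⟨_, rfl⟩
    have hg0 : 0 ≤ g := hg ▸ norm_nonneg _
    rw [← hg]
    have hd1 : 0 < ρ ^ 2 * (u ^ 2 + (δ / 2) ^ 2) := by positivity
    have hd2 : ρ ^ 2 * (u ^ 2 + (δ / 2) ^ 2) ≤ (ρ * u) ^ 2 + δ ^ 2 * R := by
      have h5 : δ ^ 2 * (ρ ^ 2 / 2) ≤ δ ^ 2 * R := mul_le_mul_of_nonneg_left hr.1 (by positivity)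
      have h6 : 0 ≤ ρ ^ 2 * δ ^ 2 := by positivity
      nlinarith
    have hd3 : (ρ ^ 2 * (u ^ 2 + (δ / 2) ^ 2)) ^ 2 ≤ ((ρ * u) ^ 2 + δ ^ 2 * R) ^ 2 :=
      pow_le_pow_left₀ hd1.le hd2 2
    have hnum : δ ^ 2 * R * (ρ * g) ^ 2 ≤ 8 * ((δ / 2) ^ 2 * g ^ 2) * ρ ^ 4 := by
      have h5 : δ ^ 2 * R ≤ δ ^ 2 * (2 * ρ ^ 2) := mul_le_mul_of_nonneg_left hr.2 (by positivity)
      have h6 : 0 ≤ (ρ * g) ^ 2 := by positivity
      calc δ ^ 2 * R * (ρ * g) ^ 2 ≤ δ ^ 2 * (2 * ρ ^ 2) * (ρ * g) ^ 2 :=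
            mul_le_mul_of_nonneg_right h5 h6
        _ = _ := by ring
    calc δ ^ 2 * R * (ρ * g) ^ 2 / ((ρ * u) ^ 2 + δ ^ 2 * R) ^ 2 ≤
          δ ^ 2 * R * (ρ * g) ^ 2 / (ρ ^ 2 * (u ^ 2 + (δ / 2) ^ 2)) ^ 2 := by
          refine div_le_div_of_nonneg_left ?_ (by positivity) hd3
          have : 0 ≤ R := le_trans (by positivity) hr.1
          positivity
      _ ≤ 8 * ((δ / 2) ^ 2 * g ^ 2) * ρ ^ 4 / (ρ ^ 2 * (u ^ 2 + (δ / 2) ^ 2)) ^ 2 :=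
          div_le_div_of_nonneg_right hnum (by positivity)
      _ = _ := by
          field_simp

theorem trans (c : ℂ) (θ : ℝ) (F : ℂ → ENNReal) :
    ∫⁻ t in {t : ℂ | ‖t - c‖ < θ}, F (t - c) = ∫⁻ t in {t : ℂ | ‖t‖ < θ}, F t := by
  have h1 : MeasurableSet {t : ℂ | ‖t - c‖ < θ} :=
    measurableSet_lt ((measurable_id.sub_const c).norm) measurable_const
  have h2 : MeasurableSet {t : ℂ | ‖t‖ < θ} := measurableSet_lt measurable_norm measurable_const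
  rw [← lintegral_indicator h1, ← lintegral_indicator h2,
    ← lintegral_sub_right_eq_self ({t : ℂ | ‖t‖ < θ}.indicator F) c]
  rfl

theorem log_int {CF : ℝ} (hF : ∀ (α β : ℂ) (δ θ : ℝ), ‖β‖ ≤ 1 → 0 < δ → δ ≤ 1 → 0 < θ →
    θ ≤ 1 → ∫⁻ t in {t : ℂ | ‖t‖ < θ}, ENNReal.ofReal (Real.log (θ / ‖t‖)) *
        ENNReal.ofReal (δ ^ 2 * ‖β‖ ^ 2 / (‖α + t * β‖ ^ 2 + δ ^ 2) ^ 2) ≤
      ENNReal.ofReal (CF * (1 + Real.log (1 / δ)))) (c : ℂ) {θ : ℝ} (hθ : 0 < θ) (hθ1 : θ ≤ 1) :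
    ∫⁻ t in {t : ℂ | ‖t - c‖ < θ}, ENNReal.ofReal (Real.log (θ / ‖t - c‖)) ≤
      ENNReal.ofReal (4 * CF) := by
  have h1 := hF 0 1 1 θ (by simp) one_pos le_rfl hθ hθ1
  have h2 : MeasurableSet {t : ℂ | ‖t‖ < θ} := measurableSet_lt measurable_norm measurable_const
  rw [trans c θ (fun t => ENNReal.ofReal (Real.log (θ / ‖t‖)))]
  have h3 : ∫⁻ t in {t : ℂ | ‖t‖ < θ}, ENNReal.ofReal (Real.log (θ / ‖t‖)) ≤
      ∫⁻ t in {t : ℂ | ‖t‖ < θ}, 4 * (ENNReal.ofReal (Real.log (θ / ‖t‖)) *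
        ENNReal.ofReal (1 ^ 2 * ‖(1 : ℂ)‖ ^ 2 / (‖0 + t * 1‖ ^ 2 + 1 ^ 2) ^ 2)) := by
    refine setLIntegral_mono' h2 fun t ht => ?_
    have ht' : ‖t‖ < θ := ht
    have h4 : (1 : ENNReal) ≤ 4 *
        ENNReal.ofReal (1 ^ 2 * ‖(1 : ℂ)‖ ^ 2 / (‖0 + t * 1‖ ^ 2 + 1 ^ 2) ^ 2) := by
      have h5 : (1 : ENNReal) = ENNReal.ofReal 1 := ENNReal.ofReal_one.symm
      have h6 : (4 : ENNReal) = ENNReal.ofReal 4 := by
        rw [ENNReal.ofReal_ofNat]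
      rw [h5, h6, ← ENNReal.ofReal_mul (by norm_num)]
      refine ENNReal.ofReal_le_ofReal ?_
      rw [zero_add, mul_one, norm_one, one_pow, mul_one, mul_one_div,
        le_div_iff₀ (by positivity)]
      have h7 : ‖t‖ ^ 2 ≤ 1 := by
        have := norm_nonneg t
        nlinarith
      have h8 : 0 ≤ ‖t‖ ^ 2 := by positivity
      nlinarith
    calc ENNReal.ofReal (Real.log (θ / ‖t‖)) = ENNReal.ofReal (Real.log (θ / ‖t‖)) * 1 :=
          (mul_one _).symm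
      _ ≤ ENNReal.ofReal (Real.log (θ / ‖t‖)) * (4 *
          ENNReal.ofReal (1 ^ 2 * ‖(1 : ℂ)‖ ^ 2 / (‖0 + t * 1‖ ^ 2 + 1 ^ 2) ^ 2)) :=
          mul_le_mul_right h4 _
      _ = _ := by ring
  refine h3.trans ?_
  rw [lintegral_const_mul' _ _ (by norm_num)]
  refine (mul_le_mul_right h1 _).trans (le_of_eq ?_)
  have h6 : (4 : ENNReal) = ENNReal.ofReal 4 := by
    rw [ENNReal.ofReal_ofNat]
  rw [h6, ← ENNReal.ofReal_mul (by norm_num)]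
  congr 1
  rw [div_one, Real.log_one, add_zero, mul_one]

theorem ker_le {CF : ℝ} (hCF : 0 < CF)
    (hF : ∀ (α β : ℂ) (δ θ : ℝ), ‖β‖ ≤ 1 → 0 < δ → δ ≤ 1 → 0 < θ →
    θ ≤ 1 → ∫⁻ t in {t : ℂ | ‖t‖ < θ}, ENNReal.ofReal (Real.log (θ / ‖t‖)) *
        ENNReal.ofReal (δ ^ 2 * ‖β‖ ^ 2 / (‖α + t * β‖ ^ 2 + δ ^ 2) ^ 2) ≤
      ENNReal.ofReal (CF * (1 + Real.log (1 / δ)))) {k : ℕ}
    {Φ : Fin (k + 1) → MvPolynomial (Fin (k + 1)) ℂ} {D : ℕ}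
    (hΦ : IsH D Φ) {X : Fin (k + 1) → Fin (k + 1) → ℂ} {i j : Fin (k + 1)}
    (hX : ∀ a b, ‖X a b - (1 : Matrix (Fin (k + 1)) (Fin (k + 1)) ℂ) a b‖ ≤ th0 k)
    (b : Fin (k + 1)) {δ : ℝ} (hδ : 0 < δ) (hδ1 : δ ≤ 1) {x : Fin (k + 1) → ℂ} (hx : x ≠ 0) :
    ∫⁻ t in {t : ℂ | ‖t - (1 : Matrix (Fin (k + 1)) (Fin (k + 1)) ℂ) i j‖ < th0 k},
        ENNReal.ofReal (Real.log
          (th0 k / ‖t - (1 : Matrix (Fin (k + 1)) (Fin (k + 1)) ℂ) i j‖)) *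
        ENNReal.ofReal (ph Φ X i j b δ t x) ≤
      ENNReal.ofReal (16 * CF * (1 + Real.log (1 / δ))) := by
  obtain ⟨α, β, hβ, hp⟩ := ph_le hΦ hX (j := j) b hδ hx
  have hθ : 0 < th0 k := by unfold th0; positivity
  have hθ1 : th0 k ≤ 1 := by
    unfold th0
    rw [div_le_one (by positivity)]
    have : (0 : ℝ) ≤ k := Nat.cast_nonneg k
    linarith
  obtain ⟨c, hc⟩ : ∃ c, c = (1 : Matrix (Fin (k + 1)) (Fin (k + 1)) ℂ) i j := ⟨_, rfl⟩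
  rw [← hc] at hp ⊢
  have h1 : MeasurableSet {t : ℂ | ‖t - c‖ < th0 k} :=
    measurableSet_lt ((measurable_id.sub_const c).norm) measurable_const
  have h8 : (8 : ENNReal) = ENNReal.ofReal 8 := by
    rw [ENNReal.ofReal_ofNat]
  have h2 : ∫⁻ t in {t : ℂ | ‖t - c‖ < th0 k}, ENNReal.ofReal (Real.log (th0 k / ‖t - c‖)) *
        ENNReal.ofReal (ph Φ X i j b δ t x) ≤
      ∫⁻ t in {t : ℂ | ‖t - c‖ < th0 k}, 8 * ((fun τ : ℂ => ENNReal.ofReal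
        (Real.log (th0 k / ‖τ‖)) * ENNReal.ofReal ((δ / 2) ^ 2 * ‖β‖ ^ 2 /
          (‖α + τ * β‖ ^ 2 + (δ / 2) ^ 2) ^ 2)) (t - c)) := by
    refine setLIntegral_mono' h1 fun t ht => ?_
    have ht' : ‖t - c‖ < th0 k := ht
    have h3 := ENNReal.ofReal_le_ofReal (hp t ht'.le)
    rw [ENNReal.ofReal_mul (by norm_num), ← h8] at h3
    calc _ ≤ ENNReal.ofReal (Real.log (th0 k / ‖t - c‖)) * (8 * ENNReal.ofReal
          ((δ / 2) ^ 2 * ‖β‖ ^ 2 / (‖α + (t - c) * β‖ ^ 2 + (δ / 2) ^ 2) ^ 2)) :=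
          mul_le_mul_right h3 _
      _ = _ := by ring
  refine h2.trans ?_
  rw [lintegral_const_mul' _ _ (by norm_num), trans c (th0 k) (fun τ : ℂ => ENNReal.ofReal
        (Real.log (th0 k / ‖τ‖)) * ENNReal.ofReal ((δ / 2) ^ 2 * ‖β‖ ^ 2 /
          (‖α + τ * β‖ ^ 2 + (δ / 2) ^ 2) ^ 2))]
  refine (mul_le_mul_right (hF α β (δ / 2) (th0 k) hβ (by positivity) (by linarith) hθ hθ1) _).trans
    ?_
  rw [h8, ← ENNReal.ofReal_mul (by norm_num)]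
  refine ENNReal.ofReal_le_ofReal ?_
  have e1 : Real.log (1 / (δ / 2)) = Real.log 2 + Real.log (1 / δ) := by
    rw [← Real.log_mul (by norm_num) (by positivity)]
    congr 1
    field_simp
  have e2 : Real.log 2 ≤ 1 := by
    have := Real.log_two_lt_d9
    linarith
  have e3 : 0 ≤ Real.log (1 / δ) := by
    refine Real.log_nonneg ?_
    rw [le_div_iff₀ hδ]
    linarith
  rw [e1]
  nlinarith [mul_nonneg hCF.le e3]

end

end Pool.Agent.H10.EM.MRC
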